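import Pool.Agent.W545.QI.Defs

/-!
Project QI (helper545): statements (Props) of the parts.
-/

set_option autoImplicit false
open scoped ContDiff ComplexConjugate Real
open MeasureTheory

namespace Pool.Agent.W545.QI

/-- SYM: `p₁`, `p₂` are Kohn-Nirenberg symbols -/
def S_SYM : Prop := (∃ m : ℝ, IsSymbol m (fun z => (p₁ z : ℂ))) ∧ (∃ m : ℝ, IsSymbol m (fun z => (p₂ z : ℂ)))

/-- COMM: the Poisson bracket vanishes -/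
def S_COMM : Prop := ∀ z : Ph, poisson p₁ p₂ z = 0

/-- IND: the differentials are independent almost everywhere -/
def S_IND : Prop := ∀ᵐ z : Ph, LinearIndependent ℝ ![fderiv ℝ p₁ z, fderiv ℝ p₂ z]

/-- EXP: expansion at the zero section -/
def S_EXP : Prop := ∀ (h₀ m : ℝ) (P : ℝ → (TS →ₗ[ℂ] TS)) (a : ℝ → Ph → ℂ) (σ : ℕ → Ph → ℂ),
  0 < h₀ → IsSemiclassical h₀ m P a σ → ∀ k : ℤ × ℤ, ∃ C : ℝ, ∀ h : ℝ, 0 < h → h ≤ h₀ →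
  ∀ x : ℝ × ℝ, ‖a h (x, (h * k.1, h * k.2)) - (σ 0 (x, (h * k.1, h * k.2)) + h * σ 1 (x, (0, 0))
    + h ^ 2 * (k.1 * pd 2 (σ 1) (x, (0, 0)) + k.2 * pd 3 (σ 1) (x, (0, 0))
      + σ 2 (x, (0, 0))))‖ ≤ C * h ^ 3

/-- IBP: integration by parts on the torus -/
def S_IBP : Prop := ∀ F : ℝ × ℝ → ℂ, SP F → TI (D1 F) = 0 ∧ TI (D2 F) = 0

/-- FU: uniqueness of Fourier coefficients -/
def S_FU : Prop := ∀ F : ℝ × ℝ → ℂ, Continuous F → Per F →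
  (∀ n : ℤ × ℤ, TI (fun x => F x * ex n x) = 0) → ∀ x, F x = 0

/-- `V₁ = cos x₂ q(x₁)`, `V₂ = 2 sin x₂`, `κ = sin x₂ f(x₁)` -/
noncomputable def V1 (x : ℝ × ℝ) : ℂ := ((Real.cos x.2 * q x.1 : ℝ) : ℂ)
noncomputable def V2 (x : ℝ × ℝ) : ℂ := ((2 * Real.sin x.2 : ℝ) : ℂ)
noncomputable def kap (x : ℝ × ℝ) : ℂ := ((Real.sin x.2 * f x.1 : ℝ) : ℂ)

/-- the symbols at the zero section: `d1 = V·k + α`, `dl = w·k + γ`, `dq = κ k₁² + b k₁ + e k₂ + u` -/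
noncomputable def d1 (al : ℝ × ℝ → ℂ) (k : ℤ × ℤ) (x : ℝ × ℝ) : ℂ :=
  V1 x * k.1 + V2 x * k.2 + al x
noncomputable def dl (w1 w2 ga : ℝ × ℝ → ℂ) (k : ℤ × ℤ) (x : ℝ × ℝ) : ℂ :=
  w1 x * k.1 + w2 x * k.2 + ga x
noncomputable def dq (bc ec uc : ℝ × ℝ → ℂ) (k : ℤ × ℤ) (x : ℝ × ℝ) : ℂ :=
  kap x * (k.1 : ℂ) ^ 2 + bc x * k.1 + ec x * k.2 + uc x

/-- the relations that symmetry and commutation give at the zero section -/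
structure Rels (al be ga w1 w2 bc ec uc : ℝ × ℝ → ℂ) : Prop where
  sal : SP al
  sbe : SP be
  sga : SP ga
  sw1 : SP w1
  sw2 : SP w2
  sbc : SP bc
  sec : SP ec
  suc : SP uc
  S1 : ∀ k l : ℤ × ℤ, TI (fun x => (d1 al k x - conj (d1 al l x)) * ex (k - l) x) = 0
  S2 : ∀ k l : ℤ × ℤ, TI (fun x => (dl w1 w2 ga k x - conj (dl w1 w2 ga l x)) * ex (k - l) x) = 0
  T1 : ∀ k l : ℤ × ℤ, TI (fun x => (be x - conj (be x)) * ex (k - l) x) = 0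
  T2 : ∀ k l : ℤ × ℤ, TI (fun x => (dq bc ec uc k x - conj (dq bc ec uc l x)) * ex (k - l) x) = 0
  C2 : ∀ k l : ℤ × ℤ, TI (fun x => (be x * conj (d1 al l x) - d1 al k x * conj (be x))
    * ex (k - l) x) = 0
  C3 : ∀ k l : ℤ × ℤ, TI (fun x => (dq bc ec uc k x * conj (d1 al l x)
      + be x * conj (dl w1 w2 ga l x) - d1 al k x * conj (dq bc ec uc l x)
      - dl w1 w2 ga k x * conj (be x)) * ex (k - l) x) = 0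

/-- COEF: the coefficients of the `ħ`-expansion -/
def S_COEF : Prop := ∀ (h₀ m₁ m₂ : ℝ) (P₁ P₂ : ℝ → (TS →ₗ[ℂ] TS)) (a₁ a₂ : ℝ → Ph → ℂ)
  (σ₁ σ₂ : ℕ → Ph → ℂ), 0 < h₀ → IsSemiclassical h₀ m₁ P₁ a₁ σ₁ → IsSemiclassical h₀ m₂ P₂ a₂ σ₂ →
  (∀ z, σ₁ 0 z = (p₁ z : ℂ)) → (∀ z, σ₂ 0 z = (p₂ z : ℂ)) →
  (∀ h : ℝ, 0 < h → h ≤ h₀ → Sym (P₁ h)) → (∀ h : ℝ, 0 < h → h ≤ h₀ → Sym (P₂ h)) →
  (∀ h : ℝ, 0 < h → h ≤ h₀ → ∀ u v : TS, ip (P₁ h u) (P₂ h v) = ip (P₂ h u) (P₁ h v)) →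
  Rels (fun x => σ₁ 1 (x, (0, 0))) (fun x => σ₂ 1 (x, (0, 0))) (fun x => σ₁ 2 (x, (0, 0)))
    (fun x => pd 2 (σ₁ 1) (x, (0, 0))) (fun x => pd 3 (σ₁ 1) (x, (0, 0)))
    (fun x => pd 2 (σ₂ 1) (x, (0, 0))) (fun x => pd 3 (σ₂ 1) (x, (0, 0)))
    (fun x => σ₂ 2 (x, (0, 0)))

/-- real solutions of the transport equations -/
structure Sol (a b e u be W1 W2 : ℝ × ℝ → ℝ) : Prop where
  sa : SP a
  sb : SP b
  se : SP e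
  su : SP u
  sbe : SP be
  sW1 : SP W1
  sW2 : SP W2
  I0 : ∀ x : ℝ × ℝ, Real.cos x.2 * q x.1 * D1 be x + 2 * Real.sin x.2 * D2 be x = 0
  I1 : ∀ x : ℝ × ℝ, Real.cos x.2 * q x.1 * D1 e x + 2 * Real.sin x.2 * D2 e x
    = 2 * Real.cos x.2 * e x
  I2 : ∀ x : ℝ × ℝ, Real.cos x.2 * q x.1 * D1 b x + 2 * Real.sin x.2 * D2 b x
    = b x * Real.cos x.2 * deriv q x.1 - e x * Real.sin x.2 * q x.1
      + 2 * Real.sin x.2 * f x.1 * D1 a x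
  I3 : ∀ x : ℝ × ℝ, Real.cos x.2 * q x.1 * D1 u x + 2 * Real.sin x.2 * D2 u x
    = b x * D1 a x + e x * D2 a x
      - 1 / 2 * Real.sin x.2 * Real.cos x.2 * deriv (fun t => f t * deriv (deriv q) t) x.1
      - (W1 x * D1 be x + W2 x * D2 be x)

/-- RED: from the relations to the transport equations -/
def S_RED : Prop := ∀ al be ga w1 w2 bc ec uc : ℝ × ℝ → ℂ, Rels al be ga w1 w2 bc ec uc →
  ∃ a b e u be' W1 W2 : ℝ × ℝ → ℝ, Sol a b e u be' W1 W2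

/-- the Taylor coefficients at `x₂ = 0` -/
structure Sol1 (a0 a1 b0 b1 b2 u1 : ℝ → ℝ) (c : ℝ) : Prop where
  sa0 : ContDiff ℝ ∞ a0
  sa1 : ContDiff ℝ ∞ a1
  sb0 : ContDiff ℝ ∞ b0
  sb1 : ContDiff ℝ ∞ b1
  sb2 : ContDiff ℝ ∞ b2
  su1 : ContDiff ℝ ∞ u1
  r3 : ∀ s, q s * deriv b0 s = deriv q s * b0 s
  r4 : ∀ s, q s * deriv b1 s + 2 * b1 s = deriv q s * b1 s + 2 * f s * deriv a0 s
  r5 : ∀ s, q s * deriv b2 s + 4 * b2 s = deriv q s * b2 s - c * q s + 2 * f s * deriv a1 s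
  r6 : ∀ s, q s * deriv u1 s + 2 * u1 s = b0 s * deriv a1 s + b1 s * deriv a0 s + c * a1 s
    - 1 / 2 * deriv (fun t => f t * deriv (deriv q) t) s

/-- TAY: Taylor coefficients at `x₂ = 0` -/
def S_TAY : Prop := ∀ a b e u be W1 W2 : ℝ × ℝ → ℝ, Sol a b e u be W1 W2 →
  ∃ (a0 a1 b0 b1 b2 u1 : ℝ → ℝ) (c : ℝ), Sol1 a0 a1 b0 b1 b2 u1 c

/-- ODE: there is no solution -/
def S_ODE : Prop := ∀ (a0 a1 b0 b1 b2 u1 : ℝ → ℝ) (c : ℝ), ¬ Sol1 a0 a1 b0 b1 b2 u1 c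

end Pool.Agent.W545.QI
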