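import Pool.Agent.W545.QI.Stms

/-!
Project QI (helper545), part COEF: the coefficients of the `ħ`-expansion.
-/

set_option autoImplicit false
open scoped ContDiff ComplexConjugate Real Topology
open MeasureTheory Filter

namespace Pool.Agent.W545.QI.Coef

/-- the square -/
def Q : Set (ℝ × ℝ) := Set.Ioc 0 (2 * π) ×ˢ Set.Ioc 0 (2 * π)

def Qc : Set (ℝ × ℝ) := Set.Icc 0 (2 * π) ×ˢ Set.Icc 0 (2 * π)

theorem Qc_compact : IsCompact Qc := isCompact_Icc.prod isCompact_Icc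

theorem Q_sub : Q ⊆ Qc := Set.prod_mono Set.Ioc_subset_Icc_self Set.Ioc_subset_Icc_self

theorem Q_meas : MeasurableSet Q := measurableSet_Ioc.prod measurableSet_Ioc

theorem cint {F : ℝ × ℝ → ℂ} (hF : Continuous F) : IntegrableOn F Q :=
  (hF.continuousOn.integrableOn_compact Qc_compact).mono_set Q_sub

theorem TI_eq {F : ℝ × ℝ → ℂ} (hF : Continuous F) : TI F = ∫ x in Q, F x := by
  have h0 : (0:ℝ) ≤ 2 * π := by positivity
  unfold TI
  rw [intervalIntegral.integral_of_le h0]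
  have h1 : ∀ s : ℝ, ∫ t in (0:ℝ)..(2 * π), F (s, t) = ∫ t in Set.Ioc 0 (2 * π), F (s, t) :=
    fun s => intervalIntegral.integral_of_le h0
  simp_rw [h1]
  have h2 := setIntegral_prod (μ := volume) (ν := volume) (s := Set.Ioc (0:ℝ) (2 * π))
    (t := Set.Ioc (0:ℝ) (2 * π)) F (by
      have := cint hF
      unfold Q at this
      exact this)
  rw [Q]
  exact h2.symm

theorem TI_add {F G : ℝ × ℝ → ℂ} (hF : Continuous F) (hG : Continuous G) :
    TI (fun x => F x + G x) = TI F + TI G := by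
  rw [TI_eq hF, TI_eq hG, TI_eq (F := fun x => F x + G x) (hF.add hG)]
  exact integral_add (cint hF) (cint hG)

theorem TI_sub {F G : ℝ × ℝ → ℂ} (hF : Continuous F) (hG : Continuous G) :
    TI (fun x => F x - G x) = TI F - TI G := by
  rw [TI_eq hF, TI_eq hG, TI_eq (F := fun x => F x - G x) (hF.sub hG)]
  exact integral_sub (cint hF) (cint hG)

theorem TI_smul (c : ℂ) (F : ℝ × ℝ → ℂ) : TI (fun x => c * F x) = c * TI F := by
  unfold TI
  simp only [intervalIntegral.integral_const_mul]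

theorem TI_lin {F G H : ℝ × ℝ → ℂ} (c₁ c₂ : ℂ) (hF : Continuous F) (hG : Continuous G)
    (hH : Continuous H) :
    TI (fun x => (c₁ * F x + c₂ * G x) - H x) = c₁ * TI F + c₂ * TI G - TI H := by
  have h1 : Continuous (fun x => c₁ * F x) := continuous_const.mul hF
  have h2 : Continuous (fun x => c₂ * G x) := continuous_const.mul hG
  have h3 : Continuous (fun x => c₁ * F x + c₂ * G x) := h1.add h2
  rw [TI_sub h3 hH, TI_add h1 h2, TI_smul, TI_smul]

theorem TI_le {F : ℝ × ℝ → ℂ} (C : ℝ) (hC : ∀ x ∈ Qc, ‖F x‖ ≤ C) :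
    ‖TI F‖ ≤ C * (2 * π) * (2 * π) := by
  have h0 : (0:ℝ) ≤ 2 * π := by positivity
  have h1 : ∀ s ∈ Set.Icc (0:ℝ) (2 * π), ‖∫ t in (0:ℝ)..(2 * π), F (s, t)‖ ≤ C * (2 * π) := by
    intro s hs
    have h2 := intervalIntegral.norm_integral_le_of_norm_le_const (a := (0:ℝ)) (b := 2 * π)
      (f := fun t => F (s, t)) (C := C) (by
        intro t ht
        rw [Set.uIoc_of_le h0] at ht
        exact hC (s, t) ⟨hs, ⟨ht.1.le, ht.2⟩⟩)
    rwa [sub_zero, abs_of_nonneg h0] at h2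
  unfold TI
  have h3 := intervalIntegral.norm_integral_le_of_norm_le_const (a := (0:ℝ)) (b := 2 * π)
    (f := fun s => ∫ t in (0:ℝ)..(2 * π), F (s, t)) (C := C * (2 * π)) (by
      intro t ht
      rw [Set.uIoc_of_le h0] at ht
      exact h1 t ⟨ht.1.le, ht.2⟩)
  rwa [sub_zero, abs_of_nonneg h0] at h3

/-! ### exponentials -/

theorem ex_add (k l : ℤ × ℤ) (x : ℝ × ℝ) : ex (k + l) x = ex k x * ex l x := by
  unfold ex
  rw [← Complex.exp_add]
  congr 1
  push_cast [Prod.fst_add, Prod.snd_add]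
  ring

theorem ex_conj (k : ℤ × ℤ) (x : ℝ × ℝ) : conj (ex k x) = ex (-k) x := by
  unfold ex
  rw [← Complex.exp_conj]
  congr 1
  simp only [map_mul, Complex.conj_I, map_add, Complex.conj_ofReal, map_intCast, Prod.fst_neg,
    Prod.snd_neg, Int.cast_neg]
  ring

theorem ex_mul_conj (k l : ℤ × ℤ) (x : ℝ × ℝ) : ex k x * conj (ex l x) = ex (k - l) x := by
  rw [ex_conj, ← ex_add, sub_eq_add_neg]

theorem ex_norm (k : ℤ × ℤ) (x : ℝ × ℝ) : ‖ex k x‖ = 1 := by
  unfold ex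
  have : Complex.I * ((k.1 : ℂ) * (x.1 : ℂ) + (k.2 : ℂ) * (x.2 : ℂ))
      = ((k.1 * x.1 + k.2 * x.2 : ℝ) : ℂ) * Complex.I := by
    push_cast; ring
  rw [this, Complex.norm_exp_ofReal_mul_I]

theorem ex_smooth (k : ℤ × ℤ) : ContDiff ℝ ∞ (ex k) := by
  unfold ex
  have h1 : ContDiff ℝ ∞ (fun x : ℝ × ℝ => (x.1 : ℂ)) :=
    Complex.ofRealCLM.contDiff.comp contDiff_fst
  have h2 : ContDiff ℝ ∞ (fun x : ℝ × ℝ => (x.2 : ℂ)) :=
    Complex.ofRealCLM.contDiff.comp contDiff_snd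
  exact Complex.contDiff_exp.comp (contDiff_const.mul ((contDiff_const.mul h1).add
    (contDiff_const.mul h2)))

theorem ex_cont (k : ℤ × ℤ) : Continuous (ex k) := (ex_smooth k).continuous

theorem ex_per (k : ℤ × ℤ) : Per (ex k) := by
  intro x n
  unfold ex
  rw [Complex.exp_eq_exp_iff_exists_int]
  refine ⟨k.1 * n.1 + k.2 * n.2, ?_⟩
  push_cast
  ring

/-- `e_k` as a smooth function on the torus -/
noncomputable def eT (k : ℤ × ℤ) : TS := ⟨ex k, ex_smooth k, ex_per k⟩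

theorem int_exp (n : ℤ) : ∫ t in (0:ℝ)..(2 * π), Complex.exp (Complex.I * (n * t))
    = if n = 0 then (2 * π : ℂ) else 0 := by
  split_ifs with h
  · subst h
    simp
  · have hc : Complex.I * (n : ℂ) ≠ 0 := mul_ne_zero Complex.I_ne_zero (Int.cast_ne_zero.2 h)
    have h1 := integral_exp_mul_complex (a := 0) (b := 2 * π) hc
    have h2 : ∀ t : ℝ, Complex.exp (Complex.I * (n * t)) = Complex.exp (Complex.I * n * t) := by
      intro t; rw [mul_assoc]
    simp_rw [h2]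
    rw [h1]
    have h3 : Complex.exp (Complex.I * n * ((2 * π : ℝ) : ℂ)) = 1 := by
      rw [Complex.exp_eq_one_iff]
      refine ⟨n, ?_⟩
      push_cast
      ring
    rw [h3]
    simp

theorem TI_ex (n : ℤ × ℤ) : TI (ex n) = if n = 0 then (4 * π ^ 2 : ℂ) else 0 := by
  unfold TI ex
  have h1 : ∀ s t : ℝ, Complex.exp (Complex.I * (n.1 * ((s, t) : ℝ × ℝ).1 + n.2 * ((s, t) : ℝ × ℝ).2))
      = Complex.exp (Complex.I * (n.1 * s)) * Complex.exp (Complex.I * (n.2 * t)) := by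
    intro s t
    rw [← Complex.exp_add]
    congr 1
    ring
  simp_rw [h1, intervalIntegral.integral_const_mul, intervalIntegral.integral_mul_const, int_exp]
  by_cases h1 : n.1 = 0
  · by_cases h2 : n.2 = 0
    · have : n = 0 := Prod.ext h1 h2
      rw [if_pos h1, if_pos h2, if_pos this]
      ring
    · have : n ≠ 0 := fun h => h2 (by rw [h]; rfl)
      rw [if_neg h2, if_neg this, mul_zero]
  · have : n ≠ 0 := fun h => h1 (by rw [h]; rfl)
    rw [if_neg h1, if_neg this, zero_mul]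

theorem fc_ex (k l : ℤ × ℤ) : fc (ex k) l = if l = k then 1 else 0 := by
  unfold fc
  have h1 : ∀ x, ex k x * ex (-l.1, -l.2) x = ex (k - l) x := by
    intro x
    rw [← ex_add]
    congr 1
  simp_rw [h1]
  rw [show (fun x => ex (k - l) x) = ex (k - l) from rfl, TI_ex]
  by_cases h : l = k
  · rw [if_pos h, if_pos (by rw [h, sub_self])]
    have : (π : ℂ) ≠ 0 := by exact_mod_cast Real.pi_ne_zero
    field_simp
  · rw [if_neg h, if_neg (by rw [sub_eq_zero]; exact fun h' => h h'.symm), mul_zero]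

theorem op_ex {h : ℝ} {a : Ph → ℂ} {T : TS →ₗ[ℂ] TS} (hT : IsOp h a T) (k : ℤ × ℤ)
    (x : ℝ × ℝ) : (T (eT k) : ℝ × ℝ → ℂ) x = a (x, (h * k.1, h * k.2)) * ex k x := by
  have h1 := hT (eT k) x
  have h2 : HasSum (fun l : ℤ × ℤ => a (x, (h * l.1, h * l.2)) * fc (eT k : ℝ × ℝ → ℂ) l * ex l x)
      (a (x, (h * k.1, h * k.2)) * fc (eT k : ℝ × ℝ → ℂ) k * ex k x) := by
    refine hasSum_single k fun l hl => ?_
    have : fc (eT k : ℝ × ℝ → ℂ) l = 0 := by
      show fc (ex k) l = 0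
      rw [fc_ex, if_neg hl]
    rw [this]
    ring
  have h3 : fc (eT k : ℝ × ℝ → ℂ) k = 1 := by
    show fc (ex k) k = 1
    rw [fc_ex, if_pos rfl]
  rw [h3, mul_one] at h2
  exact h1.unique h2

/-! ### coefficients -/

theorem coef2 {c1 c2 : ℂ} {C h₀ : ℝ} (h0 : 0 < h₀)
    (h : ∀ t : ℝ, 0 < t → t ≤ h₀ → ‖(t : ℂ) * c1 + (t : ℂ) ^ 2 * c2‖ ≤ C * t ^ 3) :
    c1 = 0 ∧ c2 = 0 := by
  have hC : ∀ t : ℝ, 0 < t → t ≤ h₀ → ‖c1 + (t : ℂ) * c2‖ ≤ C * t ^ 2 := by
    intro t h1 h2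
    have h3 := h t h1 h2
    have h4 : (t : ℂ) * c1 + (t : ℂ) ^ 2 * c2 = (t : ℂ) * (c1 + t * c2) := by ring
    rw [h4, norm_mul, Complex.norm_real, Real.norm_eq_abs, abs_of_pos h1] at h3
    have h5 : t * ‖c1 + (t : ℂ) * c2‖ ≤ t * (C * t ^ 2) := by
      calc t * ‖c1 + (t : ℂ) * c2‖ ≤ C * t ^ 3 := h3
        _ = t * (C * t ^ 2) := by ring
    exact le_of_mul_le_mul_left h5 h1
  have hlim : Tendsto (fun t : ℝ => c1 + (t : ℂ) * c2) (𝓝[>] 0) (𝓝 c1) := by
    have h1 : Continuous (fun t : ℝ => c1 + (t : ℂ) * c2) := by fun_prop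
    have h2 := h1.tendsto 0
    simp only [Complex.ofReal_zero, zero_mul, add_zero] at h2
    exact h2.mono_left nhdsWithin_le_nhds
  have hz : Tendsto (fun t : ℝ => c1 + (t : ℂ) * c2) (𝓝[>] 0) (𝓝 0) := by
    have h1 : Continuous (fun t : ℝ => C * t ^ 2) := by fun_prop
    have h2 := h1.tendsto 0
    rw [show C * (0:ℝ) ^ 2 = 0 by ring] at h2
    refine squeeze_zero_norm' ?_ (h2.mono_left nhdsWithin_le_nhds)
    filter_upwards [Ioc_mem_nhdsGT h0] with t ht
    exact hC t ht.1 ht.2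
  have hc1 : c1 = 0 := tendsto_nhds_unique hlim hz
  refine ⟨hc1, ?_⟩
  have hC' : ∀ t : ℝ, 0 < t → t ≤ h₀ → ‖c2‖ ≤ C * t := by
    intro t h1 h2
    have h3 := hC t h1 h2
    rw [hc1, zero_add, norm_mul, Complex.norm_real, Real.norm_eq_abs, abs_of_pos h1] at h3
    have h5 : t * ‖c2‖ ≤ t * (C * t) := by
      calc t * ‖c2‖ ≤ C * t ^ 2 := h3
        _ = t * (C * t) := by ring
    exact le_of_mul_le_mul_left h5 h1
  have h1 : Continuous (fun t : ℝ => C * t) := by fun_prop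
  have h2 := h1.tendsto 0
  rw [mul_zero] at h2
  have h3 : ‖c2‖ ≤ 0 := by
    refine ge_of_tendsto (h2.mono_left (nhdsWithin_le_nhds (s := Set.Ioi 0))) ?_
    filter_upwards [Ioc_mem_nhdsGT h0] with t ht
    exact hC' t ht.1 ht.2
  exact norm_le_zero_iff.1 h3

theorem prod_exp {e E s a b r : ℂ} {M K h h₀ : ℝ} (hh : 0 < h) (hh0 : h ≤ h₀) (hM : 0 ≤ M)
    (hK : 0 ≤ K) (he : ‖e‖ ≤ M) (hE : ‖E‖ ≤ M) (ha : ‖a‖ ≤ M) (hb : ‖b‖ ≤ M)
    (hs : ‖s‖ ≤ K * h ^ 3) (hr : ‖r‖ ≤ K * h ^ 3) :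
    ‖((h:ℂ) * e + (h:ℂ) ^ 2 * E + s) * ((h:ℂ) * a + (h:ℂ) ^ 2 * b + r)
      - ((h:ℂ) ^ 2 * (e * a) + (h:ℂ) ^ 3 * (E * a + e * b))‖
      ≤ (M ^ 2 + 2 * (M * (1 + h₀) * K) + K ^ 2 * h₀ ^ 2) * h ^ 4 := by
  have hn : ‖(h:ℂ)‖ = h := by rw [Complex.norm_real, Real.norm_eq_abs, abs_of_pos hh]
  have h0p : 0 ≤ h₀ := by linarith
  have e1 : ((h:ℂ) * e + (h:ℂ) ^ 2 * E + s) * ((h:ℂ) * a + (h:ℂ) ^ 2 * b + r)
      - ((h:ℂ) ^ 2 * (e * a) + (h:ℂ) ^ 3 * (E * a + e * b))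
      = (h:ℂ) ^ 4 * (E * b) + ((h:ℂ) * e + (h:ℂ) ^ 2 * E) * r
        + (s * ((h:ℂ) * a + (h:ℂ) ^ 2 * b) + s * r) := by ring
  have b1 : ‖(h:ℂ) ^ 4 * (E * b)‖ ≤ h ^ 4 * M ^ 2 := by
    rw [norm_mul, norm_pow, hn, norm_mul]
    have : ‖E‖ * ‖b‖ ≤ M * M := mul_le_mul hE hb (norm_nonneg _) hM
    have h4 : 0 ≤ h ^ 4 := by positivity
    nlinarith
  have lin : ∀ u v : ℂ, ‖u‖ ≤ M → ‖v‖ ≤ M → ‖(h:ℂ) * u + (h:ℂ) ^ 2 * v‖ ≤ h * (M * (1 + h₀)) := by
    intro u v hu hv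
    calc ‖(h:ℂ) * u + (h:ℂ) ^ 2 * v‖ ≤ ‖(h:ℂ) * u‖ + ‖(h:ℂ) ^ 2 * v‖ := norm_add_le _ _
      _ = h * ‖u‖ + h ^ 2 * ‖v‖ := by rw [norm_mul, norm_mul, norm_pow, hn]
      _ ≤ h * M + h ^ 2 * M := by gcongr
      _ = h * (M * (1 + h)) := by ring
      _ ≤ h * (M * (1 + h₀)) := by gcongr
  have b2 : ‖((h:ℂ) * e + (h:ℂ) ^ 2 * E) * r‖ ≤ (h * (M * (1 + h₀))) * (K * h ^ 3) := by
    rw [norm_mul]
    exact mul_le_mul (lin e E he hE) hr (norm_nonneg _) (by positivity)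
  have b3 : ‖s * ((h:ℂ) * a + (h:ℂ) ^ 2 * b)‖ ≤ (K * h ^ 3) * (h * (M * (1 + h₀))) := by
    rw [norm_mul]
    exact mul_le_mul hs (lin a b ha hb) (norm_nonneg _) (by positivity)
  have b4 : ‖s * r‖ ≤ (K * h ^ 3) * (K * h ^ 3) := by
    rw [norm_mul]
    exact mul_le_mul hs hr (norm_nonneg _) (by positivity)
  rw [e1]
  calc ‖(h:ℂ) ^ 4 * (E * b) + ((h:ℂ) * e + (h:ℂ) ^ 2 * E) * r
        + (s * ((h:ℂ) * a + (h:ℂ) ^ 2 * b) + s * r)‖
      ≤ ‖(h:ℂ) ^ 4 * (E * b)‖ + ‖((h:ℂ) * e + (h:ℂ) ^ 2 * E) * r‖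
        + (‖s * ((h:ℂ) * a + (h:ℂ) ^ 2 * b)‖ + ‖s * r‖) :=
        le_trans (norm_add_le _ _) (add_le_add (norm_add_le _ _) (norm_add_le _ _))
    _ ≤ h ^ 4 * M ^ 2 + (h * (M * (1 + h₀))) * (K * h ^ 3)
        + ((K * h ^ 3) * (h * (M * (1 + h₀))) + (K * h ^ 3) * (K * h ^ 3)) := by
        gcongr
    _ = (M ^ 2 + 2 * (M * (1 + h₀) * K) + K ^ 2 * h ^ 2) * h ^ 4 := by ring
    _ ≤ (M ^ 2 + 2 * (M * (1 + h₀) * K) + K ^ 2 * h₀ ^ 2) * h ^ 4 := by gcongr

/-- expansion of the symmetry relation -/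
theorem sym_coef {A : ℝ → ℤ × ℤ → ℝ × ℝ → ℂ} {d D : ℤ × ℤ → ℝ × ℝ → ℂ} {h₀ : ℝ} (h0 : 0 < h₀)
    (hA : ∀ k h, 0 < h → h ≤ h₀ → Continuous (A h k)) (hd : ∀ k, Continuous (d k))
    (hD : ∀ k, Continuous (D k))
    (hexp : ∀ k, ∃ C : ℝ, ∀ h : ℝ, 0 < h → h ≤ h₀ → ∀ x,
      ‖A h k x - ((h:ℂ) * d k x + (h:ℂ) ^ 2 * D k x)‖ ≤ C * h ^ 3)
    (hs : ∀ k l h, 0 < h → h ≤ h₀ → TI (fun x => (A h k x - conj (A h l x)) * ex (k - l) x) = 0)
    (k l : ℤ × ℤ) :
    TI (fun x => (d k x - conj (d l x)) * ex (k - l) x) = 0 ∧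
    TI (fun x => (D k x - conj (D l x)) * ex (k - l) x) = 0 := by
  obtain ⟨C1, hC1⟩ := hexp k
  obtain ⟨C2, hC2⟩ := hexp l
  refine coef2 (C := (C1 + C2) * (2 * π) * (2 * π)) h0 fun h h1 h2 => ?_
  have hc := Complex.continuous_conj
  have i1 : Continuous (fun x => (d k x - conj (d l x)) * ex (k - l) x) :=
    ((hd k).sub (hc.comp (hd l))).mul (ex_cont _)
  have i2 : Continuous (fun x => (D k x - conj (D l x)) * ex (k - l) x) :=
    ((hD k).sub (hc.comp (hD l))).mul (ex_cont _)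
  have i3 : Continuous (fun x => (A h k x - conj (A h l x)) * ex (k - l) x) :=
    ((hA k h h1 h2).sub (hc.comp (hA l h h1 h2))).mul (ex_cont _)
  have e1 : (h:ℂ) * TI (fun x => (d k x - conj (d l x)) * ex (k - l) x)
      + (h:ℂ) ^ 2 * TI (fun x => (D k x - conj (D l x)) * ex (k - l) x)
      = TI (fun x => ((h:ℂ) * ((d k x - conj (d l x)) * ex (k - l) x)
        + (h:ℂ) ^ 2 * ((D k x - conj (D l x)) * ex (k - l) x))
        - (A h k x - conj (A h l x)) * ex (k - l) x) := by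
    rw [TI_lin _ _ i1 i2 i3, hs k l h h1 h2, sub_zero]
  rw [e1]
  refine le_trans (TI_le ((C1 + C2) * h ^ 3) fun x _ => ?_) (le_of_eq (by ring))
  have e2 : ((h:ℂ) * ((d k x - conj (d l x)) * ex (k - l) x)
        + (h:ℂ) ^ 2 * ((D k x - conj (D l x)) * ex (k - l) x))
        - (A h k x - conj (A h l x)) * ex (k - l) x
      = (conj (A h l x - ((h:ℂ) * d l x + (h:ℂ) ^ 2 * D l x))
        - (A h k x - ((h:ℂ) * d k x + (h:ℂ) ^ 2 * D k x))) * ex (k - l) x := by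
    simp only [map_sub, map_add, map_mul, map_pow, Complex.conj_ofReal]
    ring
  rw [e2, norm_mul, ex_norm, mul_one]
  calc ‖conj (A h l x - ((h:ℂ) * d l x + (h:ℂ) ^ 2 * D l x))
        - (A h k x - ((h:ℂ) * d k x + (h:ℂ) ^ 2 * D k x))‖
      ≤ ‖conj (A h l x - ((h:ℂ) * d l x + (h:ℂ) ^ 2 * D l x))‖
        + ‖A h k x - ((h:ℂ) * d k x + (h:ℂ) ^ 2 * D k x)‖ := norm_sub_le _ _
    _ ≤ C2 * h ^ 3 + C1 * h ^ 3 := by
        rw [RCLike.norm_conj]
        exact add_le_add (hC2 h h1 h2 x) (hC1 h h1 h2 x)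
    _ = (C1 + C2) * h ^ 3 := by ring

/-- a continuous function is bounded on the square -/
theorem bdd {F : ℝ × ℝ → ℂ} (hF : Continuous F) : ∃ M : ℝ, ∀ x ∈ Qc, ‖F x‖ ≤ M :=
  Qc_compact.exists_bound_of_continuousOn hF.continuousOn

/-- expansion of the commutation relation -/
theorem com_coef {A B : ℝ → ℤ × ℤ → ℝ × ℝ → ℂ} {d D e E : ℤ × ℤ → ℝ × ℝ → ℂ} {h₀ : ℝ}
    (h0 : 0 < h₀)
    (hA : ∀ k h, 0 < h → h ≤ h₀ → Continuous (A h k))
    (hB : ∀ k h, 0 < h → h ≤ h₀ → Continuous (B h k))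
    (hd : ∀ k, Continuous (d k)) (hD : ∀ k, Continuous (D k))
    (he : ∀ k, Continuous (e k)) (hE : ∀ k, Continuous (E k))
    (hexpA : ∀ k, ∃ C : ℝ, ∀ h : ℝ, 0 < h → h ≤ h₀ → ∀ x,
      ‖A h k x - ((h:ℂ) * d k x + (h:ℂ) ^ 2 * D k x)‖ ≤ C * h ^ 3)
    (hexpB : ∀ k, ∃ C : ℝ, ∀ h : ℝ, 0 < h → h ≤ h₀ → ∀ x,
      ‖B h k x - ((h:ℂ) * e k x + (h:ℂ) ^ 2 * E k x)‖ ≤ C * h ^ 3)
    (hs : ∀ k l h, 0 < h → h ≤ h₀ →
      TI (fun x => (B h k x * conj (A h l x) - A h k x * conj (B h l x)) * ex (k - l) x) = 0)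
    (k l : ℤ × ℤ) :
    TI (fun x => (e k x * conj (d l x) - d k x * conj (e l x)) * ex (k - l) x) = 0 ∧
    TI (fun x => (E k x * conj (d l x) + e k x * conj (D l x) - d k x * conj (E l x)
      - D k x * conj (e l x)) * ex (k - l) x) = 0 := by
  obtain ⟨C1, hC1⟩ := hexpA k
  obtain ⟨C2, hC2⟩ := hexpA l
  obtain ⟨C3, hC3⟩ := hexpB k
  obtain ⟨C4, hC4⟩ := hexpB l
  obtain ⟨M1, hM1⟩ := bdd (hd k)
  obtain ⟨M2, hM2⟩ := bdd (hd l)
  obtain ⟨M3, hM3⟩ := bdd (hD k)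
  obtain ⟨M4, hM4⟩ := bdd (hD l)
  obtain ⟨M5, hM5⟩ := bdd (he k)
  obtain ⟨M6, hM6⟩ := bdd (he l)
  obtain ⟨M7, hM7⟩ := bdd (hE k)
  obtain ⟨M8, hM8⟩ := bdd (hE l)
  set M : ℝ := |M1| + |M2| + |M3| + |M4| + |M5| + |M6| + |M7| + |M8| with hMdef
  set K : ℝ := |C1| + |C2| + |C3| + |C4| with hKdef
  have hM0 : 0 ≤ M := by positivity
  have hK0 : 0 ≤ K := by positivity
  have leM : ∀ {t : ℝ}, t ≤ |t| := fun {t} => le_abs_self t
  have L1 : M1 ≤ M := by
    have := leM (t := M1); have := abs_nonneg M2; have := abs_nonneg M3; have := abs_nonneg M4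
    have := abs_nonneg M5; have := abs_nonneg M6; have := abs_nonneg M7; have := abs_nonneg M8
    linarith
  have L2 : M2 ≤ M := by
    have := leM (t := M2); have := abs_nonneg M1; have := abs_nonneg M3; have := abs_nonneg M4
    have := abs_nonneg M5; have := abs_nonneg M6; have := abs_nonneg M7; have := abs_nonneg M8
    linarith
  have L3 : M3 ≤ M := by
    have := leM (t := M3); have := abs_nonneg M2; have := abs_nonneg M1; have := abs_nonneg M4
    have := abs_nonneg M5; have := abs_nonneg M6; have := abs_nonneg M7; have := abs_nonneg M8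
    linarith
  have L4 : M4 ≤ M := by
    have := leM (t := M4); have := abs_nonneg M2; have := abs_nonneg M3; have := abs_nonneg M1
    have := abs_nonneg M5; have := abs_nonneg M6; have := abs_nonneg M7; have := abs_nonneg M8
    linarith
  have L5 : M5 ≤ M := by
    have := leM (t := M5); have := abs_nonneg M2; have := abs_nonneg M3; have := abs_nonneg M4
    have := abs_nonneg M1; have := abs_nonneg M6; have := abs_nonneg M7; have := abs_nonneg M8
    linarith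
  have L6 : M6 ≤ M := by
    have := leM (t := M6); have := abs_nonneg M2; have := abs_nonneg M3; have := abs_nonneg M4
    have := abs_nonneg M5; have := abs_nonneg M1; have := abs_nonneg M7; have := abs_nonneg M8
    linarith
  have L7 : M7 ≤ M := by
    have := leM (t := M7); have := abs_nonneg M2; have := abs_nonneg M3; have := abs_nonneg M4
    have := abs_nonneg M5; have := abs_nonneg M6; have := abs_nonneg M1; have := abs_nonneg M8
    linarith
  have L8 : M8 ≤ M := by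
    have := leM (t := M8); have := abs_nonneg M2; have := abs_nonneg M3; have := abs_nonneg M4
    have := abs_nonneg M5; have := abs_nonneg M6; have := abs_nonneg M7; have := abs_nonneg M1
    linarith
  have K1 : C1 ≤ K := by
    have := leM (t := C1); have := abs_nonneg C2; have := abs_nonneg C3; have := abs_nonneg C4
    linarith
  have K2 : C2 ≤ K := by
    have := leM (t := C2); have := abs_nonneg C1; have := abs_nonneg C3; have := abs_nonneg C4
    linarith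
  have K3 : C3 ≤ K := by
    have := leM (t := C3); have := abs_nonneg C2; have := abs_nonneg C1; have := abs_nonneg C4
    linarith
  have K4 : C4 ≤ K := by
    have := leM (t := C4); have := abs_nonneg C2; have := abs_nonneg C3; have := abs_nonneg C1
    linarith
  have hc := Complex.continuous_conj
  have i1 : Continuous (fun x => (e k x * conj (d l x) - d k x * conj (e l x)) * ex (k - l) x) :=
    (((he k).mul (hc.comp (hd l))).sub ((hd k).mul (hc.comp (he l)))).mul (ex_cont _)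
  have i2 : Continuous (fun x => (E k x * conj (d l x) + e k x * conj (D l x)
      - d k x * conj (E l x) - D k x * conj (e l x)) * ex (k - l) x) :=
    (((((hE k).mul (hc.comp (hd l))).add ((he k).mul (hc.comp (hD l)))).sub
      ((hd k).mul (hc.comp (hE l)))).sub ((hD k).mul (hc.comp (he l)))).mul (ex_cont _)
  set P : ℝ := (M ^ 2 + 2 * (M * (1 + h₀) * K) + K ^ 2 * h₀ ^ 2) with hP
  refine coef2 (C := (2 * P) * (2 * π) * (2 * π)) h0 fun h h1 h2 => ?_
  have i3 : Continuous (fun x => (B h k x * conj (A h l x) - A h k x * conj (B h l x))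
      * ex (k - l) x) :=
    (((hB k h h1 h2).mul (hc.comp (hA l h h1 h2))).sub
      ((hA k h h1 h2).mul (hc.comp (hB l h h1 h2)))).mul (ex_cont _)
  set X1 := TI (fun x => (e k x * conj (d l x) - d k x * conj (e l x)) * ex (k - l) x) with hX1
  set X2 := TI (fun x => (E k x * conj (d l x) + e k x * conj (D l x) - d k x * conj (E l x)
      - D k x * conj (e l x)) * ex (k - l) x) with hX2
  have hn : ‖(h:ℂ)‖ = h := by rw [Complex.norm_real, Real.norm_eq_abs, abs_of_pos h1]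
  have key : ‖(h:ℂ) ^ 2 * X1 + (h:ℂ) ^ 3 * X2‖ ≤ (2 * P) * (2 * π) * (2 * π) * h ^ 4 := by
    have e1 : (h:ℂ) ^ 2 * X1 + (h:ℂ) ^ 3 * X2
        = TI (fun x => ((h:ℂ) ^ 2 * ((e k x * conj (d l x) - d k x * conj (e l x)) * ex (k - l) x)
          + (h:ℂ) ^ 3 * ((E k x * conj (d l x) + e k x * conj (D l x) - d k x * conj (E l x)
      - D k x * conj (e l x)) * ex (k - l) x))
          - (B h k x * conj (A h l x) - A h k x * conj (B h l x)) * ex (k - l) x) := by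
      rw [TI_lin _ _ i1 i2 i3, hs k l h h1 h2, sub_zero]
    rw [e1]
    refine le_trans (TI_le (2 * P * h ^ 4) fun x hx => ?_) (le_of_eq (by ring))
    have hh3 : 0 ≤ h ^ 3 := by positivity
    have hcn : ∀ z : ℂ, ‖conj z‖ = ‖z‖ := fun z => RCLike.norm_conj z
    -- first product
    have p1 := prod_exp (e := e k x) (E := E k x)
      (s := B h k x - ((h:ℂ) * e k x + (h:ℂ) ^ 2 * E k x))
      (a := conj (d l x)) (b := conj (D l x))
      (r := conj (A h l x - ((h:ℂ) * d l x + (h:ℂ) ^ 2 * D l x))) h1 h2 hM0 hK0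
      ((hM5 x hx).trans L5) ((hM7 x hx).trans L7)
      (by rw [hcn]; exact (hM2 x hx).trans L2) (by rw [hcn]; exact (hM4 x hx).trans L4)
      ((hC3 h h1 h2 x).trans (mul_le_mul_of_nonneg_right K3 hh3))
      (by rw [hcn]; exact (hC2 h h1 h2 x).trans (mul_le_mul_of_nonneg_right K2 hh3))
    have p2 := prod_exp (e := d k x) (E := D k x)
      (s := A h k x - ((h:ℂ) * d k x + (h:ℂ) ^ 2 * D k x))
      (a := conj (e l x)) (b := conj (E l x))
      (r := conj (B h l x - ((h:ℂ) * e l x + (h:ℂ) ^ 2 * E l x))) h1 h2 hM0 hK0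
      ((hM1 x hx).trans L1) ((hM3 x hx).trans L3)
      (by rw [hcn]; exact (hM6 x hx).trans L6) (by rw [hcn]; exact (hM8 x hx).trans L8)
      ((hC1 h h1 h2 x).trans (mul_le_mul_of_nonneg_right K1 hh3))
      (by rw [hcn]; exact (hC4 h h1 h2 x).trans (mul_le_mul_of_nonneg_right K4 hh3))
    have f1 : (h:ℂ) * e k x + (h:ℂ) ^ 2 * E k x + (B h k x - ((h:ℂ) * e k x + (h:ℂ) ^ 2 * E k x))
        = B h k x := by ring
    have f2 : (h:ℂ) * d k x + (h:ℂ) ^ 2 * D k x + (A h k x - ((h:ℂ) * d k x + (h:ℂ) ^ 2 * D k x))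
        = A h k x := by ring
    have f3 : (h:ℂ) * conj (d l x) + (h:ℂ) ^ 2 * conj (D l x)
        + conj (A h l x - ((h:ℂ) * d l x + (h:ℂ) ^ 2 * D l x)) = conj (A h l x) := by
      simp only [map_sub, map_add, map_mul, map_pow, Complex.conj_ofReal]; ring
    have f4 : (h:ℂ) * conj (e l x) + (h:ℂ) ^ 2 * conj (E l x)
        + conj (B h l x - ((h:ℂ) * e l x + (h:ℂ) ^ 2 * E l x)) = conj (B h l x) := by
      simp only [map_sub, map_add, map_mul, map_pow, Complex.conj_ofReal]; ring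
    rw [f1, f3] at p1
    rw [f2, f4] at p2
    have e2 : ((h:ℂ) ^ 2 * ((e k x * conj (d l x) - d k x * conj (e l x)) * ex (k - l) x)
          + (h:ℂ) ^ 3 * ((E k x * conj (d l x) + e k x * conj (D l x) - d k x * conj (E l x)
      - D k x * conj (e l x)) * ex (k - l) x))
          - (B h k x * conj (A h l x) - A h k x * conj (B h l x)) * ex (k - l) x
        = ((A h k x * conj (B h l x) - ((h:ℂ) ^ 2 * (d k x * conj (e l x))
            + (h:ℂ) ^ 3 * (D k x * conj (e l x) + d k x * conj (E l x))))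
          - (B h k x * conj (A h l x) - ((h:ℂ) ^ 2 * (e k x * conj (d l x))
            + (h:ℂ) ^ 3 * (E k x * conj (d l x) + e k x * conj (D l x))))) * ex (k - l) x := by
      ring
    rw [e2, norm_mul, ex_norm, mul_one]
    refine le_trans (norm_sub_le _ _) ?_
    linarith
  have e3 : (h:ℂ) ^ 2 * X1 + (h:ℂ) ^ 3 * X2 = (h:ℂ) * ((h:ℂ) * X1 + (h:ℂ) ^ 2 * X2) := by ring
  rw [e3, norm_mul, hn] at key
  have e4 : (2 * P) * (2 * π) * (2 * π) * h ^ 4 = h * ((2 * P) * (2 * π) * (2 * π) * h ^ 3) := by ring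
  rw [e4] at key
  exact le_of_mul_le_mul_left key h1

/-! ### regularity -/

theorem q_cont : Continuous q := by unfold q; fun_prop
theorem f_cont : Continuous f := by unfold f; fun_prop

theorem V1_cont : Continuous V1 := by
  unfold V1
  exact Complex.continuous_ofReal.comp ((Real.continuous_cos.comp continuous_snd).mul
    (q_cont.comp continuous_fst))

theorem V2_cont : Continuous V2 := by
  unfold V2
  exact Complex.continuous_ofReal.comp (continuous_const.mul (Real.continuous_sin.comp continuous_snd))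

theorem kap_cont : Continuous kap := by
  unfold kap
  exact Complex.continuous_ofReal.comp ((Real.continuous_sin.comp continuous_snd).mul
    (f_cont.comp continuous_fst))

theorem pd_smooth {a : Ph → ℂ} (ha : ContDiff ℝ ∞ a) (i : Fin 4) : ContDiff ℝ ∞ (pd i a) := by
  unfold pd
  exact (ha.fderiv_right (m := ∞) (by simp)).clm_apply contDiff_const

theorem pd_per {a : Ph → ℂ} (ha : PerPh a) (i : Fin 4) : PerPh (pd i a) := by
  intro ξ x n
  show fderiv ℝ a ((x.1 + 2 * π * n.1, x.2 + 2 * π * n.2), ξ) (dir i) = fderiv ℝ a (x, ξ) (dir i)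
  have h1 : (fun p : Ph => a (p + ((2 * π * n.1, 2 * π * n.2), (0, 0)))) = a := by
    funext p
    have := ha p.2 p.1 n
    simp only at this
    rw [← this]
    congr 1
    ext <;> simp
  have h2 := fderiv_comp_add_right (𝕜 := ℝ) (f := a) (x := (x, ξ))
    (((2 * π * n.1, 2 * π * n.2), (0, 0)) : Ph)
  rw [h1] at h2
  rw [h2]
  congr 2
  ext <;> simp

theorem slice_SP {a : Ph → ℂ} (ha : ContDiff ℝ ∞ a) (hp : PerPh a) :
    SP (fun x : ℝ × ℝ => a (x, ((0:ℝ), (0:ℝ)))) :=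
  ⟨ha.comp (contDiff_id.prodMk contDiff_const), hp (0, 0)⟩

theorem slice_cont {a : Ph → ℂ} (ha : ContDiff ℝ ∞ a) (ξ : ℝ × ℝ) :
    Continuous (fun x : ℝ × ℝ => a (x, ξ)) :=
  ha.continuous.comp (continuous_id.prodMk continuous_const)

theorem t (hE : S_EXP) : S_COEF := by
  intro h₀ m₁ m₂ P₁ P₂ a₁ a₂ σ₁ σ₂ h0 H1 H2 e1 e2 s1 s2 hc
  have X1 := hE h₀ m₁ P₁ a₁ σ₁ h0 H1
  have X2 := hE h₀ m₂ P₂ a₂ σ₂ h0 H2
  have SPs : ∀ (m : ℝ) (a : Ph → ℂ), IsSymbol m a → SP (fun x : ℝ × ℝ => a (x, ((0:ℝ), (0:ℝ)))) :=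
    fun m a h => slice_SP h.1 h.2.1
  have SPd : ∀ (m : ℝ) (a : Ph → ℂ), IsSymbol m a → ∀ i,
      SP (fun x : ℝ × ℝ => pd i a (x, ((0:ℝ), (0:ℝ)))) :=
    fun m a h i => slice_SP (pd_smooth h.1 i) (pd_per h.2.1 i)
  -- notation
  set al : ℝ × ℝ → ℂ := fun x => σ₁ 1 (x, (0, 0)) with hal
  set be : ℝ × ℝ → ℂ := fun x => σ₂ 1 (x, (0, 0)) with hbe
  set ga : ℝ × ℝ → ℂ := fun x => σ₁ 2 (x, (0, 0)) with hga
  set w1 : ℝ × ℝ → ℂ := fun x => pd 2 (σ₁ 1) (x, (0, 0)) with hw1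
  set w2 : ℝ × ℝ → ℂ := fun x => pd 3 (σ₁ 1) (x, (0, 0)) with hw2
  set bc : ℝ × ℝ → ℂ := fun x => pd 2 (σ₂ 1) (x, (0, 0)) with hbc
  set ec : ℝ × ℝ → ℂ := fun x => pd 3 (σ₂ 1) (x, (0, 0)) with hec
  set uc : ℝ × ℝ → ℂ := fun x => σ₂ 2 (x, (0, 0)) with huc
  have sal : SP al := SPs _ _ (H1.coeff 1)
  have sbe : SP be := SPs _ _ (H2.coeff 1)
  have sga : SP ga := SPs _ _ (H1.coeff 2)
  have sw1 : SP w1 := SPd _ _ (H1.coeff 1) 2
  have sw2 : SP w2 := SPd _ _ (H1.coeff 1) 3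
  have sbc : SP bc := SPd _ _ (H2.coeff 1) 2
  have sec : SP ec := SPd _ _ (H2.coeff 1) 3
  have suc : SP uc := SPs _ _ (H2.coeff 2)
  set A : ℝ → ℤ × ℤ → ℝ × ℝ → ℂ := fun h k x => a₁ h (x, (h * k.1, h * k.2)) with hA
  set B : ℝ → ℤ × ℤ → ℝ × ℝ → ℂ := fun h k x => a₂ h (x, (h * k.1, h * k.2)) with hB
  have cA : ∀ k h, 0 < h → h ≤ h₀ → Continuous (A h k) := fun k h g1 g2 =>
    slice_cont (H1.smooth h g1 g2).1 _
  have cB : ∀ k h, 0 < h → h ≤ h₀ → Continuous (B h k) := fun k h g1 g2 =>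
    slice_cont (H2.smooth h g1 g2).1 _
  have cd : ∀ k, Continuous (d1 al k) := fun k =>
    ((V1_cont.mul continuous_const).add (V2_cont.mul continuous_const)).add sal.1.continuous
  have cD : ∀ k, Continuous (dl w1 w2 ga k) := fun k =>
    ((sw1.1.continuous.mul continuous_const).add (sw2.1.continuous.mul continuous_const)).add
      sga.1.continuous
  have ce : ∀ _ : ℤ × ℤ, Continuous be := fun _ => sbe.1.continuous
  have cE : ∀ k, Continuous (dq bc ec uc k) := fun k =>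
    (((kap_cont.mul continuous_const).add (sbc.1.continuous.mul continuous_const)).add
      (sec.1.continuous.mul continuous_const)).add suc.1.continuous
  have exA : ∀ k, ∃ C : ℝ, ∀ h : ℝ, 0 < h → h ≤ h₀ → ∀ x,
      ‖A h k x - ((h:ℂ) * d1 al k x + (h:ℂ) ^ 2 * dl w1 w2 ga k x)‖ ≤ C * h ^ 3 := by
    intro k
    obtain ⟨C, hC⟩ := X1 k
    refine ⟨C, fun h g1 g2 x => ?_⟩
    have := hC h g1 g2 x
    rw [e1] at this
    convert! this using 2
    simp only [hA, d1, dl, V1, V2, p₁, hal, hw1, hw2, hga]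
    push_cast
    ring
  have exB : ∀ k, ∃ C : ℝ, ∀ h : ℝ, 0 < h → h ≤ h₀ → ∀ x,
      ‖B h k x - ((h:ℂ) * be x + (h:ℂ) ^ 2 * dq bc ec uc k x)‖ ≤ C * h ^ 3 := by
    intro k
    obtain ⟨C, hC⟩ := X2 k
    refine ⟨C, fun h g1 g2 x => ?_⟩
    have := hC h g1 g2 x
    rw [e2] at this
    convert! this using 2
    simp only [hB, dq, kap, p₂, hbe, hbc, hec, huc]
    push_cast
    ring
  have opA : ∀ h, 0 < h → h ≤ h₀ → ∀ k x, (P₁ h (eT k) : ℝ × ℝ → ℂ) x = A h k x * ex k x :=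
    fun h g1 g2 k x => op_ex (H1.quant h g1 g2) k x
  have opB : ∀ h, 0 < h → h ≤ h₀ → ∀ k x, (P₂ h (eT k) : ℝ × ℝ → ℂ) x = B h k x * ex k x :=
    fun h g1 g2 k x => op_ex (H2.quant h g1 g2) k x
  have hcj := Complex.continuous_conj
  have symA : ∀ k l h, 0 < h → h ≤ h₀ →
      TI (fun x => (A h k x - conj (A h l x)) * ex (k - l) x) = 0 := by
    intro k l h g1 g2
    have h1 := s1 h g1 g2 (eT k) (eT l)
    unfold ip at h1
    have h2 : (fun x => (P₁ h (eT k) : ℝ × ℝ → ℂ) x * conj ((eT l : ℝ × ℝ → ℂ) x))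
        = fun x => A h k x * ex (k - l) x := by
      funext x
      rw [opA h g1 g2, ← ex_mul_conj]
      show A h k x * ex k x * conj (ex l x) = _
      ring
    have h3 : (fun x => (eT k : ℝ × ℝ → ℂ) x * conj ((P₁ h (eT l) : ℝ × ℝ → ℂ) x))
        = fun x => conj (A h l x) * ex (k - l) x := by
      funext x
      rw [opA h g1 g2, ← ex_mul_conj, map_mul]
      show ex k x * (conj (A h l x) * conj (ex l x)) = _
      ring
    rw [h2, h3] at h1
    have h4 : (fun x => (A h k x - conj (A h l x)) * ex (k - l) x)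
        = fun x => A h k x * ex (k - l) x - conj (A h l x) * ex (k - l) x := by
      funext x; ring
    have c1 : Continuous (fun x => A h k x * ex (k - l) x) := (cA k h g1 g2).mul (ex_cont _)
    have c2 : Continuous (fun x => conj (A h l x) * ex (k - l) x) :=
      (hcj.comp (cA l h g1 g2)).mul (ex_cont _)
    rw [h4, TI_sub c1 c2, h1, sub_self]
  have symB : ∀ k l h, 0 < h → h ≤ h₀ →
      TI (fun x => (B h k x - conj (B h l x)) * ex (k - l) x) = 0 := by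
    intro k l h g1 g2
    have h1 := s2 h g1 g2 (eT k) (eT l)
    unfold ip at h1
    have h2 : (fun x => (P₂ h (eT k) : ℝ × ℝ → ℂ) x * conj ((eT l : ℝ × ℝ → ℂ) x))
        = fun x => B h k x * ex (k - l) x := by
      funext x
      rw [opB h g1 g2, ← ex_mul_conj]
      show B h k x * ex k x * conj (ex l x) = _
      ring
    have h3 : (fun x => (eT k : ℝ × ℝ → ℂ) x * conj ((P₂ h (eT l) : ℝ × ℝ → ℂ) x))
        = fun x => conj (B h l x) * ex (k - l) x := by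
      funext x
      rw [opB h g1 g2, ← ex_mul_conj, map_mul]
      show ex k x * (conj (B h l x) * conj (ex l x)) = _
      ring
    rw [h2, h3] at h1
    have h4 : (fun x => (B h k x - conj (B h l x)) * ex (k - l) x)
        = fun x => B h k x * ex (k - l) x - conj (B h l x) * ex (k - l) x := by
      funext x; ring
    have c1 : Continuous (fun x => B h k x * ex (k - l) x) := (cB k h g1 g2).mul (ex_cont _)
    have c2 : Continuous (fun x => conj (B h l x) * ex (k - l) x) :=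
      (hcj.comp (cB l h g1 g2)).mul (ex_cont _)
    rw [h4, TI_sub c1 c2, h1, sub_self]
  have comAB : ∀ k l h, 0 < h → h ≤ h₀ →
      TI (fun x => (B h k x * conj (A h l x) - A h k x * conj (B h l x)) * ex (k - l) x) = 0 := by
    intro k l h g1 g2
    have h1 := hc h g1 g2 (eT k) (eT l)
    unfold ip at h1
    have h2 : (fun x => (P₁ h (eT k) : ℝ × ℝ → ℂ) x * conj ((P₂ h (eT l) : ℝ × ℝ → ℂ) x))
        = fun x => A h k x * conj (B h l x) * ex (k - l) x := by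
      funext x
      rw [opA h g1 g2, opB h g1 g2, ← ex_mul_conj, map_mul]
      ring
    have h3 : (fun x => (P₂ h (eT k) : ℝ × ℝ → ℂ) x * conj ((P₁ h (eT l) : ℝ × ℝ → ℂ) x))
        = fun x => B h k x * conj (A h l x) * ex (k - l) x := by
      funext x
      rw [opA h g1 g2, opB h g1 g2, ← ex_mul_conj, map_mul]
      ring
    rw [h2, h3] at h1
    have h4 : (fun x => (B h k x * conj (A h l x) - A h k x * conj (B h l x)) * ex (k - l) x)
        = fun x => B h k x * conj (A h l x) * ex (k - l) x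
          - A h k x * conj (B h l x) * ex (k - l) x := by
      funext x; ring
    have c1 : Continuous (fun x => B h k x * conj (A h l x) * ex (k - l) x) :=
      ((cB k h g1 g2).mul (hcj.comp (cA l h g1 g2))).mul (ex_cont _)
    have c2 : Continuous (fun x => A h k x * conj (B h l x) * ex (k - l) x) :=
      ((cA k h g1 g2).mul (hcj.comp (cB l h g1 g2))).mul (ex_cont _)
    rw [h4, TI_sub c1 c2, h1, sub_self]
  have R1 := sym_coef h0 cA cd cD exA symA
  have R2 := sym_coef (d := fun _ => be) h0 cB ce cE exB symB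
  have R3 := com_coef (e := fun _ => be) h0 cA cB cd cD ce cE exA exB comAB
  exact ⟨sal, sbe, sga, sw1, sw2, sbc, sec, suc, fun k l => (R1 k l).1, fun k l => (R1 k l).2,
    fun k l => (R2 k l).1, fun k l => (R2 k l).2, fun k l => (R3 k l).1, fun k l => (R3 k l).2⟩

end Pool.Agent.W545.QI.Coef
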