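import Pool.Agent.W545.QI.Stms

/-!
Project QI (helper545), part ODE: the one-dimensional system has no solution.
-/

set_option autoImplicit false
open scoped ContDiff ComplexConjugate Real Topology
open MeasureTheory Filter

namespace Pool.Agent.W545.QI

/-! ### the functions `q` and `f` -/

theorem q_smooth : ContDiff ℝ ∞ q := by
  unfold q
  fun_prop

theorem f_smooth : ContDiff ℝ ∞ f := by
  unfold f
  fun_prop

theorem deriv_smooth {g : ℝ → ℝ} (hg : ContDiff ℝ ∞ g) : ContDiff ℝ ∞ (deriv g) :=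
  (contDiff_infty_iff_deriv.1 hg).2

theorem hasDeriv {g : ℝ → ℝ} (hg : ContDiff ℝ ∞ g) (s : ℝ) : HasDerivAt g (deriv g s) s :=
  ((contDiff_infty_iff_deriv.1 hg).1 s).hasDerivAt

/-- explicit derivative of `q` -/
theorem q_der (s : ℝ) : HasDerivAt q
    (-Real.sin s * (Real.sin s + 3 * Real.cos s) * (Real.sin s - Real.cos s)
        * (Real.sin s - 2 * Real.cos s)
      + Real.cos s * (Real.cos s - 3 * Real.sin s) * (Real.sin s - Real.cos s)
        * (Real.sin s - 2 * Real.cos s)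
      + Real.cos s * (Real.sin s + 3 * Real.cos s) * (Real.cos s + Real.sin s)
        * (Real.sin s - 2 * Real.cos s)
      + Real.cos s * (Real.sin s + 3 * Real.cos s) * (Real.sin s - Real.cos s)
        * (Real.cos s + 2 * Real.sin s)) s := by
  have hc := Real.hasDerivAt_cos s
  have hs := Real.hasDerivAt_sin s
  have h := (((hc.mul (hs.add (hc.const_mul 3))).mul (hs.sub hc)).mul (hs.sub (hc.const_mul 2)))
  convert! h using 1
  simp only [Pi.mul_apply, Pi.add_apply, Pi.sub_apply]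
  ring

/-- explicit derivative of `f` -/
theorem f_der (s : ℝ) : HasDerivAt f
    (-4 * Real.cos s ^ 3 * Real.sin s * (Real.sin s + 3 * Real.cos s)
        * (Real.sin s - Real.cos s) ^ 3
      + Real.cos s ^ 4 * (Real.cos s - 3 * Real.sin s) * (Real.sin s - Real.cos s) ^ 3
      + 3 * Real.cos s ^ 4 * (Real.sin s + 3 * Real.cos s) * (Real.sin s - Real.cos s) ^ 2
        * (Real.cos s + Real.sin s)) s := by
  have hc := Real.hasDerivAt_cos s
  have hs := Real.hasDerivAt_sin s
  have h := (((hc.pow 4).mul (hs.add (hc.const_mul 3))).mul ((hs.sub hc).pow 3))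
  convert! h using 1
  simp only [Pi.mul_apply, Pi.add_apply, Pi.sub_apply, Pi.pow_apply]
  ring

theorem dq_eq (s : ℝ) : deriv q s =
    (-Real.sin s * (Real.sin s + 3 * Real.cos s) * (Real.sin s - Real.cos s)
        * (Real.sin s - 2 * Real.cos s)
      + Real.cos s * (Real.cos s - 3 * Real.sin s) * (Real.sin s - Real.cos s)
        * (Real.sin s - 2 * Real.cos s)
      + Real.cos s * (Real.sin s + 3 * Real.cos s) * (Real.cos s + Real.sin s)
        * (Real.sin s - 2 * Real.cos s)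
      + Real.cos s * (Real.sin s + 3 * Real.cos s) * (Real.sin s - Real.cos s)
        * (Real.cos s + 2 * Real.sin s)) := (q_der s).deriv

theorem df_eq (s : ℝ) : deriv f s =
    (-4 * Real.cos s ^ 3 * Real.sin s * (Real.sin s + 3 * Real.cos s)
        * (Real.sin s - Real.cos s) ^ 3
      + Real.cos s ^ 4 * (Real.cos s - 3 * Real.sin s) * (Real.sin s - Real.cos s) ^ 3
      + 3 * Real.cos s ^ 4 * (Real.sin s + 3 * Real.cos s) * (Real.sin s - Real.cos s) ^ 2
        * (Real.cos s + Real.sin s)) := (f_der s).deriv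

/-- `q f' = 2 q' f - 2 f` -/
theorem qf_rel (s : ℝ) : q s * deriv f s = 2 * deriv q s * f s - 2 * f s := by
  rw [dq_eq, df_eq]
  unfold q f
  have h := Real.sin_sq_add_cos_sq s
  generalize Real.sin s = S at *
  generalize Real.cos s = K at *
  linear_combination (-2 * (K ^ 4 * (S + 3 * K) * (S - K) ^ 3) * (S ^ 2 + K ^ 2 + 1)) * h

/-- the derivative of the relation -/
theorem qf_rel1 (s : ℝ) : deriv q s * deriv f s + q s * deriv (deriv f) s
    = 2 * deriv (deriv q) s * f s + 2 * deriv q s * deriv f s - 2 * deriv f s := by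
  have hq := hasDeriv q_smooth s
  have hq1 := hasDeriv (deriv_smooth q_smooth) s
  have hf := hasDeriv f_smooth s
  have hf1 := hasDeriv (deriv_smooth f_smooth) s
  have h1 := hq.mul hf1
  have h2 := ((hq1.const_mul 2).mul hf).sub (hf.const_mul 2)
  have e : (q * deriv f) = ((fun y => 2 * deriv q y) * f - fun y => 2 * f y) := by
    funext t
    simp only [Pi.mul_apply, Pi.sub_apply]
    exact qf_rel t
  rw [e] at h1
  have := h1.unique h2
  linear_combination this

theorem qf_rel2 (s : ℝ) : deriv (deriv q) s * deriv f s + 2 * deriv q s * deriv (deriv f) s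
    + q s * deriv (deriv (deriv f)) s
    = 2 * deriv (deriv (deriv q)) s * f s + 4 * deriv (deriv q) s * deriv f s
      + 2 * deriv q s * deriv (deriv f) s - 2 * deriv (deriv f) s := by
  have hq := hasDeriv q_smooth s
  have hq1 := hasDeriv (deriv_smooth q_smooth) s
  have hq2 := hasDeriv (deriv_smooth (deriv_smooth q_smooth)) s
  have hf := hasDeriv f_smooth s
  have hf1 := hasDeriv (deriv_smooth f_smooth) s
  have hf2 := hasDeriv (deriv_smooth (deriv_smooth f_smooth)) s
  have h1 := (hq1.mul hf1).add (hq.mul hf2)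
  have h2 := (((hq2.const_mul 2).mul hf).add ((hq1.const_mul 2).mul hf1)).sub (hf1.const_mul 2)
  have e : (deriv q * deriv f + q * deriv (deriv f))
      = ((fun y => 2 * deriv (deriv q) y) * f + (fun y => 2 * deriv q y) * deriv f
        - fun y => 2 * deriv f y) := by
    funext t
    simp only [Pi.mul_apply, Pi.sub_apply, Pi.add_apply]
    exact qf_rel1 t
  rw [e] at h1
  have := h1.unique h2
  linear_combination this

/-- the function `N` -/
noncomputable def NN (a1 b0 b1 b2 u1 : ℝ → ℝ) (c : ℝ) (s : ℝ) : ℝ :=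
  16 * f s * (u1 s - c / 2 * a1 s + deriv (deriv f) s / 4) - 4 * b1 s ^ 2
    - 8 * (b0 s - c / 2 * q s) * (b2 s + c / 4 * q s) - deriv f s ^ 2

theorem NN_smooth {a1 b0 b1 b2 u1 : ℝ → ℝ} (c : ℝ) (ha1 : ContDiff ℝ ∞ a1) (hb0 : ContDiff ℝ ∞ b0)
    (hb1 : ContDiff ℝ ∞ b1) (hb2 : ContDiff ℝ ∞ b2) (hu1 : ContDiff ℝ ∞ u1) :
    ContDiff ℝ ∞ (NN a1 b0 b1 b2 u1 c) := by
  have hq := q_smooth
  have hf := f_smooth
  have hf1 := deriv_smooth f_smooth
  have hf2 := deriv_smooth (deriv_smooth f_smooth)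
  unfold NN
  fun_prop

theorem NN_ode {a0 a1 b0 b1 b2 u1 : ℝ → ℝ} {c : ℝ} (h : Sol1 a0 a1 b0 b1 b2 u1 c) (s : ℝ) :
    q s * deriv (NN a1 b0 b1 b2 u1 c) s = (2 * deriv q s - 4) * NN a1 b0 b1 b2 u1 c s := by
  have hq := hasDeriv q_smooth s
  have hq1 := hasDeriv (deriv_smooth q_smooth) s
  have hq2 := hasDeriv (deriv_smooth (deriv_smooth q_smooth)) s
  have hf := hasDeriv f_smooth s
  have hf1 := hasDeriv (deriv_smooth f_smooth) s
  have hf2 := hasDeriv (deriv_smooth (deriv_smooth f_smooth)) s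
  have ha1 := hasDeriv h.sa1 s
  have hb0 := hasDeriv h.sb0 s
  have hb1 := hasDeriv h.sb1 s
  have hb2 := hasDeriv h.sb2 s
  have hu1 := hasDeriv h.su1 s
  have hN : HasDerivAt (NN a1 b0 b1 b2 u1 c)
      (16 * deriv f s * (u1 s - c / 2 * a1 s + deriv (deriv f) s / 4)
        + 16 * f s * (deriv u1 s - c / 2 * deriv a1 s + deriv (deriv (deriv f)) s / 4)
        - 8 * b1 s * deriv b1 s
        - 8 * (deriv b0 s - c / 2 * deriv q s) * (b2 s + c / 4 * q s)
        - 8 * (b0 s - c / 2 * q s) * (deriv b2 s + c / 4 * deriv q s)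
        - 2 * deriv f s * deriv (deriv f) s) s := by
    have h1 := (((hf.const_mul 16).mul ((hu1.sub (ha1.const_mul (c / 2))).add (hf2.div_const 4))).sub
      ((hb1.pow 2).const_mul 4)).sub
        (((hb0.sub (hq.const_mul (c / 2))).const_mul 8).mul (hb2.add (hq.const_mul (c / 4))))
    have h2 := h1.sub (hf1.pow 2)
    convert! h2 using 1
    simp only [Pi.mul_apply, Pi.add_apply, Pi.sub_apply]
    ring
  rw [hN.deriv]
  have r6 := h.r6 s
  have e6 : deriv (fun t => f t * deriv (deriv q) t) s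
      = deriv f s * deriv (deriv q) s + f s * deriv (deriv (deriv q)) s := (hf.mul hq2).deriv
  rw [e6] at r6
  have r3 := h.r3 s
  have r4 := h.r4 s
  have r5 := h.r5 s
  have g0 := qf_rel s
  have g1 := qf_rel1 s
  have g2 := qf_rel2 s
  unfold NN
  linear_combination 16 * (u1 s - c / 2 * a1 s + deriv (deriv f) s / 4) * g0 + 16 * f s * r6
    + 4 * f s * g2 - 8 * b1 s * r4 - 8 * (b2 s + c / 4 * q s) * r3
    - 8 * (b0 s - c / 2 * q s) * r5 - 2 * deriv f s * g1

/-! ### a smooth function that vanishes on the right is flat from the left -/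

theorem flat_left (n : ℕ) : ∀ (g : ℝ → ℝ) (c d : ℝ), ContDiff ℝ ∞ g → c < d →
    (∀ s, c < s → s < d → g s = 0) → ∃ C : ℝ, ∀ s, c - 1 ≤ s → s ≤ c → |g s| ≤ C * (c - s) ^ n := by
  induction n with
  | zero =>
    intro g c d hg _ _
    obtain ⟨C, hC⟩ := (isCompact_Icc (a := c - 1) (b := c)).exists_bound_of_continuousOn
      hg.continuous.continuousOn
    exact ⟨C, fun s h1 h2 => by simpa using hC s ⟨h1, h2⟩⟩
  | succ n ih =>
    intro g c d hg hcd h0
    have hg1 := deriv_smooth hg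
    have h1 : ∀ s, c < s → s < d → deriv g s = 0 := by
      intro s h2 h3
      have h4 : g =ᶠ[𝓝 s] fun _ => (0:ℝ) := by
        filter_upwards [Ioo_mem_nhds h2 h3] with t ht
        exact h0 t ht.1 ht.2
      rw [h4.deriv_eq]
      simp
    obtain ⟨C, hC⟩ := ih (deriv g) c d hg1 hcd h1
    have hgc : g c = 0 := by
      have h2 : Tendsto g (𝓝[>] c) (𝓝 (g c)) := hg.continuous.continuousAt.tendsto.mono_left
        nhdsWithin_le_nhds
      have h3 : Tendsto g (𝓝[>] c) (𝓝 0) := by
        refine tendsto_const_nhds.congr' ?_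
        filter_upwards [Ioo_mem_nhdsGT hcd] with t ht
        exact (h0 t ht.1 ht.2).symm
      exact tendsto_nhds_unique h2 h3
    refine ⟨C, fun s h2 h3 => ?_⟩
    have h4 : ‖g c - g s‖ ≤ C * (c - s) ^ n * (c - s) := by
      refine norm_image_sub_le_of_norm_deriv_le_segment' (f := g) (f' := deriv g) (a := s) (b := c)
        (fun t _ => (hasDeriv hg t).hasDerivWithinAt) ?_ c ⟨h3, le_rfl⟩
      intro t ht
      have h5 := hC t (by linarith [ht.1]) ht.2.le
      rw [Real.norm_eq_abs]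
      refine h5.trans ?_
      have hC0 : 0 ≤ C := by
        have h6 := hC (c - 1) le_rfl (by linarith)
        have h7 : (c - (c - 1)) ^ n = (1:ℝ) := by
          rw [show c - (c - 1) = (1:ℝ) by ring, one_pow]
        rw [h7, mul_one] at h6
        exact le_trans (abs_nonneg _) h6
      have h8 : (c - t) ^ n ≤ (c - s) ^ n := pow_le_pow_left₀ (by linarith [ht.2]) (by linarith [ht.1]) n
      exact mul_le_mul_of_nonneg_left h8 hC0
    rw [hgc, zero_sub, norm_neg, Real.norm_eq_abs] at h4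
    rw [pow_succ]
    linarith [h4]

/-! ### the arcs -/

theorem arc_lt {u s : ℝ} (h1 : Real.arctan u < s) (h2 : s < π / 2) :
    0 < Real.cos s ∧ u * Real.cos s < Real.sin s := by
  have h3 : -(π / 2) < s := lt_trans (Real.neg_pi_div_two_lt_arctan u) h1
  have hc : 0 < Real.cos s := Real.cos_pos_of_mem_Ioo ⟨h3, h2⟩
  refine ⟨hc, ?_⟩
  have h4 := Real.tan_lt_tan_of_lt_of_lt_pi_div_two (Real.neg_pi_div_two_lt_arctan u) h2 h1
  rw [Real.tan_arctan, Real.tan_eq_sin_div_cos, lt_div_iff₀ hc] at h4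
  exact h4

theorem lt_arc {v s : ℝ} (h1 : s < Real.arctan v) (h2 : -(π / 2) < s) :
    0 < Real.cos s ∧ Real.sin s < v * Real.cos s := by
  have h3 : s < π / 2 := lt_trans h1 (Real.arctan_lt_pi_div_two v)
  have hc : 0 < Real.cos s := Real.cos_pos_of_mem_Ioo ⟨h2, h3⟩
  refine ⟨hc, ?_⟩
  have h4 := Real.tan_lt_tan_of_lt_of_lt_pi_div_two h2 (Real.arctan_lt_pi_div_two v) h1
  rw [Real.tan_arctan, Real.tan_eq_sin_div_cos, div_lt_iff₀ hc] at h4
  exact h4

theorem at_arc (u : ℝ) : 0 < Real.cos (Real.arctan u) ∧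
    Real.sin (Real.arctan u) = u * Real.cos (Real.arctan u) := by
  have hc := Real.cos_arctan_pos u
  refine ⟨hc, ?_⟩
  have h4 := Real.tan_arctan u
  rw [Real.tan_eq_sin_div_cos, div_eq_iff hc.ne'] at h4
  exact h4

/-- `R = cos⁶ (sin - cos)⁴` -/
noncomputable def RR (s : ℝ) : ℝ := Real.cos s ^ 6 * (Real.sin s - Real.cos s) ^ 4

/-- `L = N (sin - 2 cos)²` -/
noncomputable def LL (N : ℝ → ℝ) (s : ℝ) : ℝ := N s * (Real.sin s - 2 * Real.cos s) ^ 2

theorem RR_der (s : ℝ) : HasDerivAt RR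
    (-6 * Real.cos s ^ 5 * Real.sin s * (Real.sin s - Real.cos s) ^ 4
      + 4 * Real.cos s ^ 6 * (Real.sin s - Real.cos s) ^ 3 * (Real.cos s + Real.sin s)) s := by
  have hc := Real.hasDerivAt_cos s
  have hs := Real.hasDerivAt_sin s
  have h := (hc.pow 6).mul ((hs.sub hc).pow 4)
  convert! h using 1
  simp only [Pi.sub_apply, Pi.pow_apply]
  ring

theorem LL_der {N : ℝ → ℝ} (hN : ContDiff ℝ ∞ N) (s : ℝ) : HasDerivAt (LL N)
    (deriv N s * (Real.sin s - 2 * Real.cos s) ^ 2
      + N s * (2 * (Real.sin s - 2 * Real.cos s) * (Real.cos s + 2 * Real.sin s))) s := by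
  have hc := Real.hasDerivAt_cos s
  have hs := Real.hasDerivAt_sin s
  have h := (hasDeriv hN s).mul ((hs.sub (hc.const_mul 2)).pow 2)
  convert! h using 1
  simp only [Pi.sub_apply, Pi.pow_apply]
  ring

theorem key_rel (s : ℝ) : (2 * deriv q s - 4) * (Real.sin s - 2 * Real.cos s) * RR s
    + 2 * q s * (Real.cos s + 2 * Real.sin s) * RR s
    - q s * (Real.sin s - 2 * Real.cos s)
      * (-6 * Real.cos s ^ 5 * Real.sin s * (Real.sin s - Real.cos s) ^ 4
      + 4 * Real.cos s ^ 6 * (Real.sin s - Real.cos s) ^ 3 * (Real.cos s + Real.sin s)) = 0 := by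
  rw [dq_eq]
  unfold q RR
  have h := Real.sin_sq_add_cos_sq s
  generalize Real.sin s = S at *
  generalize Real.cos s = K at *
  linear_combination (4 * (S - 2 * K) * (K ^ 6 * (S - K) ^ 4) * (S ^ 2 + K ^ 2 + 1)) * h

/-- on an interval where `q ≠ 0`, `L = C R` -/
theorem arc_const {N : ℝ → ℝ} (hN : ContDiff ℝ ∞ N)
    (hode : ∀ s, q s * deriv N s = (2 * deriv q s - 4) * N s) (a b : ℝ)
    (hq : ∀ s ∈ Set.Ioo a b, q s ≠ 0) (hR : ∀ s ∈ Set.Ioo a b, RR s ≠ 0) :
    ∃ C : ℝ, ∀ s ∈ Set.Ioo a b, LL N s = C * RR s := by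
  have hd : ∀ s ∈ Set.Ioo a b, HasDerivAt (fun t => LL N t / RR t) 0 s := by
    intro s hs
    have h1 := (LL_der hN s).div (RR_der s) (hR s hs)
    have h2 : (deriv N s * (Real.sin s - 2 * Real.cos s) ^ 2
      + N s * (2 * (Real.sin s - 2 * Real.cos s) * (Real.cos s + 2 * Real.sin s))) * RR s
      - LL N s * (-6 * Real.cos s ^ 5 * Real.sin s * (Real.sin s - Real.cos s) ^ 4
      + 4 * Real.cos s ^ 6 * (Real.sin s - Real.cos s) ^ 3 * (Real.cos s + Real.sin s)) = 0 := by
      have h3 := hode s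
      have h4 := key_rel s
      have h5 : q s * ((deriv N s * (Real.sin s - 2 * Real.cos s) ^ 2
      + N s * (2 * (Real.sin s - 2 * Real.cos s) * (Real.cos s + 2 * Real.sin s))) * RR s
      - LL N s * (-6 * Real.cos s ^ 5 * Real.sin s * (Real.sin s - Real.cos s) ^ 4
      + 4 * Real.cos s ^ 6 * (Real.sin s - Real.cos s) ^ 3 * (Real.cos s + Real.sin s))) = 0 := by
        unfold LL
        linear_combination (Real.sin s - 2 * Real.cos s) ^ 2 * RR s * h3
          + N s * (Real.sin s - 2 * Real.cos s) * h4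
      exact (mul_eq_zero.1 h5).resolve_left (hq s hs)
    rw [h2, zero_div] at h1
    exact h1
  obtain ⟨C, hC⟩ := isOpen_Ioo.exists_is_const_of_deriv_eq_zero (s := Set.Ioo a b)
    (f := fun t => LL N t / RR t) isPreconnected_Ioo
    (fun s hs => (hd s hs).differentiableAt.differentiableWithinAt)
    (fun s hs => (hd s hs).deriv)
  refine ⟨C, fun s hs => ?_⟩
  have h1 : LL N s / RR s = C := hC s hs
  rw [div_eq_iff (hR s hs)] at h1
  exact h1

theorem LL_cont {N : ℝ → ℝ} (hN : ContDiff ℝ ∞ N) : ContDiff ℝ ∞ (LL N) := by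
  unfold LL
  fun_prop

theorem RR_cont : Continuous RR := by
  unfold RR
  fun_prop

theorem q_fac (s : ℝ) (h1 : Real.cos s ≠ 0) (h2 : Real.sin s + 3 * Real.cos s ≠ 0)
    (h3 : Real.sin s - Real.cos s ≠ 0) (h4 : Real.sin s - 2 * Real.cos s ≠ 0) : q s ≠ 0 := by
  unfold q
  exact mul_ne_zero (mul_ne_zero (mul_ne_zero h1 h2) h3) h4

theorem t_ODE : S_ODE := by
  intro a0 a1 b0 b1 b2 u1 c h
  have hN : ContDiff ℝ ∞ (NN a1 b0 b1 b2 u1 c) := NN_smooth c h.sa1 h.sb0 h.sb1 h.sb2 h.su1
  have hode := NN_ode h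
  have hL := LL_cont hN
  have e1 : Real.arctan (-3) < Real.arctan 0 := Real.arctan_strictMono (by norm_num)
  rw [Real.arctan_zero] at e1
  have e2 : Real.arctan 0 < Real.arctan 1 := Real.arctan_strictMono (by norm_num)
  rw [Real.arctan_zero] at e2
  have e3 : Real.arctan 1 < Real.arctan 2 := Real.arctan_strictMono (by norm_num)
  have e4 : Real.arctan 2 < π / 2 := Real.arctan_lt_pi_div_two 2
  have e5 : -(π / 2) < Real.arctan (-3) := Real.neg_pi_div_two_lt_arctan (-3)
  -- first arc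
  have A1 : ∀ s ∈ Set.Ioo (Real.arctan (-3)) (Real.arctan 1), 0 < Real.cos s ∧
      -3 * Real.cos s < Real.sin s ∧ Real.sin s < 1 * Real.cos s := by
    intro s hs
    have h1 := arc_lt hs.1 (by linarith [hs.2])
    have h2 := lt_arc hs.2 (by linarith [hs.1])
    exact ⟨h1.1, h1.2, h2.2⟩
  have A2 : ∀ s ∈ Set.Ioo (Real.arctan 1) (Real.arctan 2), 0 < Real.cos s ∧
      1 * Real.cos s < Real.sin s ∧ Real.sin s < 2 * Real.cos s := by
    intro s hs
    have h1 := arc_lt hs.1 (by linarith [hs.2])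
    have h2 := lt_arc hs.2 (by linarith [hs.1])
    exact ⟨h1.1, h1.2, h2.2⟩
  obtain ⟨C1, hC1⟩ := arc_const hN hode _ _ (fun s hs => by
      obtain ⟨g1, g2, g3⟩ := A1 s hs
      exact q_fac s g1.ne' (by linarith) (by linarith) (by linarith))
    (fun s hs => by
      obtain ⟨g1, g2, g3⟩ := A1 s hs
      exact mul_ne_zero (pow_ne_zero _ g1.ne') (pow_ne_zero _ (by linarith)))
  obtain ⟨C2, hC2⟩ := arc_const hN hode _ _ (fun s hs => by
      obtain ⟨g1, g2, g3⟩ := A2 s hs
      exact q_fac s g1.ne' (by linarith) (by linarith) (by linarith))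
    (fun s hs => by
      obtain ⟨g1, g2, g3⟩ := A2 s hs
      exact mul_ne_zero (pow_ne_zero _ g1.ne') (pow_ne_zero _ (by linarith)))
  -- `C2 = 0`
  have hz3 : C2 = 0 := by
    have h1 : LL (NN a1 b0 b1 b2 u1 c) (Real.arctan 2) = C2 * RR (Real.arctan 2) := by
      have g1 : Tendsto (LL (NN a1 b0 b1 b2 u1 c)) (𝓝[<] (Real.arctan 2))
          (𝓝 (LL (NN a1 b0 b1 b2 u1 c) (Real.arctan 2))) :=
        hL.continuous.continuousAt.tendsto.mono_left nhdsWithin_le_nhds
      have g2 : Tendsto (fun s => C2 * RR s) (𝓝[<] (Real.arctan 2))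
          (𝓝 (C2 * RR (Real.arctan 2))) :=
        ((continuous_const.mul RR_cont).continuousAt.tendsto).mono_left nhdsWithin_le_nhds
      refine tendsto_nhds_unique (g1.congr' ?_) g2
      filter_upwards [Ioo_mem_nhdsLT e3] with s hs
      exact hC2 s hs
    obtain ⟨g1, g2⟩ := at_arc 2
    have h2 : LL (NN a1 b0 b1 b2 u1 c) (Real.arctan 2) = 0 := by
      unfold LL
      rw [g2]
      ring
    have h3 : RR (Real.arctan 2) ≠ 0 := by
      unfold RR
      rw [g2]
      exact mul_ne_zero (pow_ne_zero _ g1.ne') (pow_ne_zero _ (by linarith))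
    rw [h2] at h1
    exact (mul_eq_zero.1 h1.symm).resolve_right h3
  have hR0 : ∀ s, Real.arctan 1 < s → s < Real.arctan 2 → LL (NN a1 b0 b1 b2 u1 c) s = 0 := by
    intro s h1 h2
    rw [hC2 s ⟨h1, h2⟩, hz3, zero_mul]
  obtain ⟨C, hC⟩ := flat_left 5 _ _ _ hL e3 hR0
  -- `C1 = 0`
  have hz1 : C1 = 0 := by
    by_contra hne
    have hpos : 0 < |C1| := abs_pos.2 hne
    have hpi : (0:ℝ) < π := Real.pi_pos
    have hpi4 := Real.pi_le_four
    have key : ∀ δ : ℝ, 0 < δ → δ < π / 4 → |C1| ≤ 1024 * C * δ := by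
      intro δ h1 h2
      have hs1 : Real.arctan 1 - δ ∈ Set.Ioo (Real.arctan (-3)) (Real.arctan 1) := by
        rw [Real.arctan_one]
        constructor
        · linarith
        · linarith
      have h3 := hC (Real.arctan 1 - δ) (by linarith) (by linarith)
      rw [hC1 _ hs1, abs_mul] at h3
      have h4 : (Real.arctan 1 - (Real.arctan 1 - δ)) = δ := by ring
      rw [h4] at h3
      rw [Real.arctan_one] at h3
      have h5 : (1:ℝ) / 2 ≤ Real.cos (π / 4 - δ) := by
        have h6 : Real.cos (π / 3) ≤ Real.cos (π / 4 - δ) :=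
          Real.cos_le_cos_of_nonneg_of_le_pi (by linarith) (by linarith) (by linarith)
        rwa [Real.cos_pi_div_three] at h6
      have h6 : δ / 2 ≤ Real.cos (π / 4 - δ) - Real.sin (π / 4 - δ) := by
        have h7 : Real.cos (π / 4 - δ) - Real.sin (π / 4 - δ) = Real.sqrt 2 * Real.sin δ := by
          rw [Real.cos_sub, Real.sin_sub, Real.cos_pi_div_four, Real.sin_pi_div_four]
          ring
        have h8 := Real.mul_le_sin h1.le (by linarith)
        have h9 : (1:ℝ) ≤ Real.sqrt 2 := by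
          rw [Real.one_le_sqrt]; norm_num
        have h10 : δ / 2 ≤ 2 / π * δ := by
          rw [div_mul_eq_mul_div, div_le_div_iff₀ (by norm_num) hpi]
          nlinarith
        rw [h7]
        have h11 : 0 ≤ Real.sin δ := by linarith
        nlinarith
      have h7 : δ ^ 4 / 1024 ≤ |RR (π / 4 - δ)| := by
        have g1 : (1 / 2 : ℝ) ^ 6 ≤ Real.cos (π / 4 - δ) ^ 6 :=
          pow_le_pow_left₀ (by norm_num) h5 6
        have g2 : (δ / 2) ^ 4 ≤ (Real.cos (π / 4 - δ) - Real.sin (π / 4 - δ)) ^ 4 :=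
          pow_le_pow_left₀ (by linarith) h6 4
        have g3 : RR (π / 4 - δ) = Real.cos (π / 4 - δ) ^ 6
            * (Real.cos (π / 4 - δ) - Real.sin (π / 4 - δ)) ^ 4 := by
          unfold RR; ring
        have g4 : (0:ℝ) ≤ (δ / 2) ^ 4 := by positivity
        have g5 : (1 / 2 : ℝ) ^ 6 * (δ / 2) ^ 4 ≤ RR (π / 4 - δ) := by
          rw [g3]
          exact mul_le_mul g1 g2 g4 (by positivity)
        refine le_trans ?_ (le_trans g5 (le_abs_self _))
        apply le_of_eq
        ring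
      have h8 : |C1| * (δ ^ 4 / 1024) ≤ C * δ ^ 5 :=
        le_trans (mul_le_mul_of_nonneg_left h7 (abs_nonneg _)) h3
      have h9 : 0 < δ ^ 4 := by positivity
      have h10 : |C1| * δ ^ 4 ≤ (1024 * C * δ) * δ ^ 4 := by
        have : C * δ ^ 5 = C * δ * δ ^ 4 := by ring
        rw [this] at h8
        linarith
      exact le_of_mul_le_mul_right h10 h9
    have hCp : 0 < C := by
      have := key (π / 8) (by linarith) (by linarith)
      by_contra hn
      push Not at hn
      nlinarith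
    have hδ : 0 < min (π / 8) (|C1| / (2048 * C)) := lt_min (by linarith) (by positivity)
    have h1 := key (min (π / 8) (|C1| / (2048 * C))) hδ
      (lt_of_le_of_lt (min_le_left _ _) (by linarith))
    have h2 : 1024 * C * min (π / 8) (|C1| / (2048 * C)) ≤ |C1| / 2 := by
      calc 1024 * C * min (π / 8) (|C1| / (2048 * C)) ≤ 1024 * C * (|C1| / (2048 * C)) :=
            mul_le_mul_of_nonneg_left (min_le_right _ _) (by positivity)
        _ = |C1| / 2 := by field_simp; ring
    linarith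
  -- the value at `arctan (-3)`
  obtain ⟨g1, g2⟩ := at_arc (-3)
  have hqz : q (Real.arctan (-3)) = 0 := by
    unfold q
    rw [g2]; ring
  have hfz : f (Real.arctan (-3)) = 0 := by
    unfold f
    rw [g2]; ring
  have hq1 : deriv q (Real.arctan (-3)) = 200 * Real.cos (Real.arctan (-3)) ^ 4 := by
    rw [dq_eq, g2]; ring
  have hf1 : deriv f (Real.arctan (-3)) = -640 * Real.cos (Real.arctan (-3)) ^ 8 := by
    rw [df_eq, g2]; ring
  have hb0 : b0 (Real.arctan (-3)) = 0 := by
    have h1 := h.r3 (Real.arctan (-3))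
    rw [hqz, zero_mul, hq1] at h1
    have h2 : (200:ℝ) * Real.cos (Real.arctan (-3)) ^ 4 ≠ 0 := by positivity
    exact (mul_eq_zero.1 h1.symm).resolve_left h2
  have hNz : NN a1 b0 b1 b2 u1 c (Real.arctan (-3)) < 0 := by
    unfold NN
    rw [hfz, hb0, hqz, hf1]
    have h1 : 0 < (640 * Real.cos (Real.arctan (-3)) ^ 8) ^ 2 := by positivity
    nlinarith [sq_nonneg (b1 (Real.arctan (-3)))]
  have h1 : LL (NN a1 b0 b1 b2 u1 c) (Real.arctan (-3)) = C1 * RR (Real.arctan (-3)) := by
    have g3 : Tendsto (LL (NN a1 b0 b1 b2 u1 c)) (𝓝[>] (Real.arctan (-3)))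
        (𝓝 (LL (NN a1 b0 b1 b2 u1 c) (Real.arctan (-3)))) :=
      hL.continuous.continuousAt.tendsto.mono_left nhdsWithin_le_nhds
    have g4 : Tendsto (fun s => C1 * RR s) (𝓝[>] (Real.arctan (-3)))
        (𝓝 (C1 * RR (Real.arctan (-3)))) :=
      ((continuous_const.mul RR_cont).continuousAt.tendsto).mono_left nhdsWithin_le_nhds
    refine tendsto_nhds_unique (g3.congr' ?_) g4
    filter_upwards [Ioo_mem_nhdsGT (lt_trans e1 e2)] with s hs
    exact hC1 s hs
  rw [hz1, zero_mul] at h1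
  unfold LL at h1
  rw [g2] at h1
  have h2 : (-3 * Real.cos (Real.arctan (-3)) - 2 * Real.cos (Real.arctan (-3))) ^ 2 ≠ 0 :=
    pow_ne_zero _ (by linarith)
  rcases mul_eq_zero.1 h1 with h3 | h3
  · linarith
  · exact h2 h3

end Pool.Agent.W545.QI
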