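import Pool.Agent.W545.QI.St
import Pool.Agent.W545.QI.Ode
import Pool.Agent.W545.QI.Coef
import Pool.Agent.W7.QI.Tay
import Pool.Agent.W7.QI.Ind
import Pool.Agent.W407.QI.Exp
import Pool.Agent.W407.QI.Sym
import Pool.Agent.W628.QI.Red2
import Pool.Agent.W688.QI.FU

/-!
Project QI (helper545): the main theorem in the form of the statement file `St.lean`.
-/

set_option autoImplicit false
open scoped ContDiff ComplexConjugate Real
open MeasureTheory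

namespace Pool.Agent.W545.QI

theorem pds_eq (l : List (Fin 4)) : ∀ a : Ph → ℂ, St.pds l a = pds l a := by
  induction l with
  | nil => intro a; rfl
  | cons i l ih => intro a; exact ih (pd i a)

theorem nxi_eq (l : List (Fin 4)) : St.nxi l = nxi l := by
  induction l with
  | nil => rfl
  | cons i l ih =>
    show (if 2 ≤ i.val then 1 else 0) + St.nxi l = (if 2 ≤ i.val then 1 else 0) + nxi l
    rw [ih]

theorem sym_iff (m : ℝ) (a : Ph → ℂ) : St.IsSymbol m a ↔ IsSymbol m a := by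
  unfold St.IsSymbol IsSymbol
  simp only [pds_eq, nxi_eq]
  rfl

theorem fc_add {u v : ℝ × ℝ → ℂ} (hu : Continuous u) (hv : Continuous v) (k : ℤ × ℤ) :
    fc (u + v) k = fc u k + fc v k := by
  unfold fc
  have h1 : (fun x => (u + v) x * ex (-k.1, -k.2) x)
      = fun x => u x * ex (-k.1, -k.2) x + v x * ex (-k.1, -k.2) x := by
    funext x
    rw [Pi.add_apply, add_mul]
  have c1 : Continuous (fun x => u x * ex (-k.1, -k.2) x) := hu.mul (Coef.ex_cont _)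
  have c2 : Continuous (fun x => v x * ex (-k.1, -k.2) x) := hv.mul (Coef.ex_cont _)
  rw [h1, Coef.TI_add c1 c2, mul_add]

theorem fc_smul (c : ℂ) (u : ℝ × ℝ → ℂ) (k : ℤ × ℤ) : fc (c • u) k = c * fc u k := by
  unfold fc
  have h1 : (fun x => (c • u) x * ex (-k.1, -k.2) x)
      = fun x => c * (u x * ex (-k.1, -k.2) x) := by
    funext x
    rw [Pi.smul_apply, smul_eq_mul, mul_assoc]
  rw [h1, Coef.TI_smul]
  ring

/-- an operator given by the quantisation formula is linear on `C^∞(T²)` -/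
theorem toLin {h : ℝ} {a : Ph → ℂ} {T : (ℝ × ℝ → ℂ) → (ℝ × ℝ → ℂ)} (hT : St.IsOp h a T) :
    ∃ T' : TS →ₗ[ℂ] TS, ∀ u : TS, (T' u : ℝ × ℝ → ℂ) = T u := by
  refine ⟨{ toFun := fun u => ⟨T u, (hT u u.2).1⟩, map_add' := ?_, map_smul' := ?_ }, fun u => rfl⟩
  · intro u v
    apply Subtype.ext
    funext x
    have h1 := (hT (u + v : TS) (u + v : TS).2).2 x
    have h2 := (hT u u.2).2 x
    have h3 := (hT v v.2).2 x
    have h4 := h2.add h3
    refine h1.unique ?_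
    convert! h4 using 1
    funext k
    have : St.fc ((u + v : TS) : ℝ × ℝ → ℂ) k = St.fc (u : ℝ × ℝ → ℂ) k + St.fc (v : ℝ × ℝ → ℂ) k :=
      fc_add u.2.1.continuous v.2.1.continuous k
    rw [this]
    ring
  · intro c u
    apply Subtype.ext
    funext x
    have h1 := (hT (c • u : TS) (c • u : TS).2).2 x
    have h2 := ((hT u u.2).2 x).mul_left c
    refine h1.unique ?_
    convert! h2 using 1
    funext k
    have : St.fc ((c • u : TS) : ℝ × ℝ → ℂ) k = c * St.fc (u : ℝ × ℝ → ℂ) k := fc_smul c u k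
    rw [this]
    ring

open Classical in
theorem main (h₀ m₁ m₂ : ℝ) (P₁ P₂ : ℝ → (ℝ × ℝ → ℂ) → (ℝ × ℝ → ℂ)) (h0 : 0 < h₀)
    (H1 : St.IsQuantisation h₀ m₁ P₁ St.p₁) (H2 : St.IsQuantisation h₀ m₂ P₂ St.p₂)
    (s1 : ∀ h : ℝ, 0 < h → h ≤ h₀ → St.IsSym (P₁ h))
    (s2 : ∀ h : ℝ, 0 < h → h ≤ h₀ → St.IsSym (P₂ h))
    (hc : ∀ h : ℝ, 0 < h → h ≤ h₀ → St.WeaklyCommute (P₁ h) (P₂ h)) : False := by
  have conv : ∀ (m : ℝ) (P : ℝ → (ℝ × ℝ → ℂ) → (ℝ × ℝ → ℂ)) (a : ℝ → Ph → ℂ) (σ : ℕ → Ph → ℂ),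
      St.IsSemiclassical h₀ m P a σ → ∃ P' : ℝ → (TS →ₗ[ℂ] TS), IsSemiclassical h₀ m P' a σ ∧
      ∀ h : ℝ, 0 < h → h ≤ h₀ → ∀ u : TS, (P' h u : ℝ × ℝ → ℂ) = P h u := by
    intro m P a σ H
    have key : ∀ h : ℝ, ∃ T' : TS →ₗ[ℂ] TS, 0 < h → h ≤ h₀ →
        ∀ u : TS, (T' u : ℝ × ℝ → ℂ) = P h u := by
      intro h
      by_cases hh : 0 < h ∧ h ≤ h₀
      · obtain ⟨T', hT'⟩ := toLin (H.quant h hh.1 hh.2)
        exact ⟨T', fun _ _ => hT'⟩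
      · exact ⟨0, fun g1 g2 => absurd ⟨g1, g2⟩ hh⟩
    choose P' hP' using key
    refine ⟨P', ⟨?_, ?_, ?_, ?_⟩, hP'⟩
    · intro h g1 g2
      have := (sym_iff m (a h)).1 (H.smooth h g1 g2)
      exact ⟨this.1, this.2.1⟩
    · intro j
      exact (sym_iff _ _).1 (H.coeff j)
    · intro N l
      obtain ⟨C, hC⟩ := H.expan N l
      refine ⟨C, fun h g1 g2 p => ?_⟩
      have := hC h g1 g2 p
      rw [pds_eq, nxi_eq] at this
      exact this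
    · intro h g1 g2 u x
      rw [hP' h g1 g2 u]
      exact (H.quant h g1 g2 u u.2).2 x
  obtain ⟨a₁, σ₁, H1, e1⟩ := H1
  obtain ⟨a₂, σ₂, H2, e2⟩ := H2
  obtain ⟨Q₁, K1, E1⟩ := conv m₁ P₁ a₁ σ₁ H1
  obtain ⟨Q₂, K2, E2⟩ := conv m₂ P₂ a₂ σ₂ H2
  have S1 : ∀ h : ℝ, 0 < h → h ≤ h₀ → Sym (Q₁ h) := by
    intro h g1 g2 u v
    rw [E1 h g1 g2 u, E1 h g1 g2 v]
    exact s1 h g1 g2 u v u.2 v.2
  have S2 : ∀ h : ℝ, 0 < h → h ≤ h₀ → Sym (Q₂ h) := by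
    intro h g1 g2 u v
    rw [E2 h g1 g2 u, E2 h g1 g2 v]
    exact s2 h g1 g2 u v u.2 v.2
  have C : ∀ h : ℝ, 0 < h → h ≤ h₀ → ∀ u v : TS, ip (Q₁ h u) (Q₂ h v) = ip (Q₂ h u) (Q₁ h v) := by
    intro h g1 g2 u v
    rw [E1 h g1 g2 u, E1 h g1 g2 v, E2 h g1 g2 u, E2 h g1 g2 v]
    exact hc h g1 g2 u v u.2 v.2
  have R := Coef.t Pool.Agent.W407.QI.Exp.t h₀ m₁ m₂ Q₁ Q₂ a₁ a₂ σ₁ σ₂ h0 K1 K2 e1 e2 S1 S2 C
  obtain ⟨a, b, e, u, be, W1, W2, hS⟩ :=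
    Pool.Agent.W628.QI.t Pool.Agent.W688.QI.t1 Pool.Agent.W688.QI.t2 _ _ _ _ _ _ _ _ R
  obtain ⟨a0, a1, b0, b1, b2, u1, c, hS1⟩ := Pool.Agent.W7.QI.t a b e u be W1 W2 hS
  exact t_ODE a0 a1 b0 b1 b2 u1 c hS1

/-- a covector is determined by its values on the coordinate directions -/
theorem dir_ext (L : Ph →L[ℝ] ℝ) (h : ∀ i, L (dir i) = 0) : L = 0 := by
  refine ContinuousLinearMap.ext fun z => ?_
  have e : z = z.1.1 • dir 0 + z.1.2 • dir 1 + z.2.1 • dir 2 + z.2.2 • dir 3 := by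
    unfold dir
    ext <;> simp
  rw [e]
  simp only [map_add, map_smul, h, smul_zero, add_zero, ContinuousLinearMap.zero_apply]

theorem classical : St.IsClassicalIntegrable St.p₁ St.p₂ := by
  refine ⟨?_, ?_, Pool.Agent.W7.QI.t1, ?_⟩
  · obtain ⟨m, hm⟩ := Pool.Agent.W407.QI.t.1
    exact ⟨m, (sym_iff _ _).2 hm⟩
  · obtain ⟨m, hm⟩ := Pool.Agent.W407.QI.t.2
    exact ⟨m, (sym_iff _ _).2 hm⟩
  · filter_upwards [Pool.Agent.W7.QI.t2] with z hz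
    rw [LinearIndependent.pair_iff] at hz ⊢
    intro s t hst
    apply hz s t
    apply dir_ext
    intro i
    have := congrFun hst i
    exact this

end Pool.Agent.W545.QI
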