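import Mathlib

/-!
Definitions for MP_c1d796_mp, setting (b) on the torus `X = T² = (ℝ/2πℤ)²`: Kohn-Nirenberg symbols on
`T*T²`, semiclassical pseudo-differential operators on `T²`, classical integrable systems.
-/

set_option autoImplicit false
open scoped ContDiff ComplexConjugate Real
open MeasureTheory

namespace Pool.Agent.W545.QI.St

/-- phase space `T*T²` lifted to `ℝ² × ℝ²`; a point is `(x, ξ)` -/
abbrev Ph : Type := (ℝ × ℝ) × (ℝ × ℝ)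

/-- the coordinate directions `x₁, x₂, ξ₁, ξ₂` -/
def dir : Fin 4 → Ph := ![((1, 0), (0, 0)), ((0, 1), (0, 0)), ((0, 0), (1, 0)), ((0, 0), (0, 1))]

/-- partial derivative in the coordinate direction `i` -/
noncomputable def pd (i : Fin 4) (a : Ph → ℂ) : Ph → ℂ := fun p => fderiv ℝ a p (dir i)

/-- iterated partial derivatives -/
noncomputable def pds : List (Fin 4) → (Ph → ℂ) → (Ph → ℂ)
  | [], a => a
  | i :: l, a => pds l (pd i a)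

/-- the number of `ξ`-derivatives in a list of directions -/
def nxi : List (Fin 4) → ℕ
  | [] => 0
  | i :: l => (if 2 ≤ i.val then 1 else 0) + nxi l

/-- `2π`-periodic functions of `x ∈ ℝ²` -/
def Per (u : ℝ × ℝ → ℂ) : Prop :=
  ∀ (x : ℝ × ℝ) (n : ℤ × ℤ), u (x.1 + 2 * π * n.1, x.2 + 2 * π * n.2) = u x

/-- the Kohn-Nirenberg class `S^m(T*T²)`: smooth functions `a(x, ξ)`, `2π`-periodic in `x`, with
`|∂_x^α ∂_ξ^β a| ≤ C (1 + |ξ|)^(m - |β|)` -/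
def IsSymbol (m : ℝ) (a : Ph → ℂ) : Prop :=
  ContDiff ℝ ∞ a ∧ (∀ ξ : ℝ × ℝ, Per (fun x => a (x, ξ))) ∧
    ∀ l : List (Fin 4), ∃ C : ℝ, ∀ p : Ph, ‖pds l a p‖ ≤ C * (1 + ‖p.2‖) ^ (m - nxi l)

/-- `u ∈ C^∞(T²)` -/
def IsSmooth (u : ℝ × ℝ → ℂ) : Prop := ContDiff ℝ ∞ u ∧ Per u

/-- the exponential `e^{i k·x}` -/
noncomputable def ex (k : ℤ × ℤ) (x : ℝ × ℝ) : ℂ :=
  Complex.exp (Complex.I * (k.1 * x.1 + k.2 * x.2))

/-- the integral over the torus -/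
noncomputable def TI (F : ℝ × ℝ → ℂ) : ℂ := ∫ s in (0:ℝ)..(2 * π), ∫ t in (0:ℝ)..(2 * π), F (s, t)

/-- Fourier coefficients -/
noncomputable def fc (u : ℝ × ℝ → ℂ) (k : ℤ × ℤ) : ℂ :=
  (1 / (4 * π ^ 2)) * TI (fun x => u x * ex (-k.1, -k.2) x)

/-- the `L²(T²)` inner product -/
noncomputable def ip (u v : ℝ × ℝ → ℂ) : ℂ := TI (fun x => u x * conj (v x))

/-- `T = Op_ħ(a)` on `C^∞(T²)`: `(T u)(x) = ∑_{k ∈ ℤ²} a(x, ħk) û(k) e^{ik·x}` -/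
def IsOp (h : ℝ) (a : Ph → ℂ) (T : (ℝ × ℝ → ℂ) → (ℝ × ℝ → ℂ)) : Prop :=
  ∀ u : ℝ × ℝ → ℂ, IsSmooth u → IsSmooth (T u) ∧ ∀ x : ℝ × ℝ,
    HasSum (fun k : ℤ × ℤ => a (x, (h * k.1, h * k.2)) * fc u k * ex k x) (T u x)

/-- `P = (P_ħ)`, `0 < ħ ≤ ħ₀`, is a semiclassical pseudo-differential operator of order `m` on `T²`
with full symbol `a ħ ∼ ∑ ħ^j σ_j`, `σ_j ∈ S^{m-j}`: for all `N` the functions
`ħ^{-N} (a ħ - ∑_{j < N} ħ^j σ_j)` are bounded in `S^{m-N}` -/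
structure IsSemiclassical (h₀ m : ℝ) (P : ℝ → (ℝ × ℝ → ℂ) → (ℝ × ℝ → ℂ)) (a : ℝ → Ph → ℂ)
    (σ : ℕ → Ph → ℂ) : Prop where
  smooth : ∀ h : ℝ, 0 < h → h ≤ h₀ → IsSymbol m (a h)
  coeff : ∀ j : ℕ, IsSymbol (m - j) (σ j)
  expan : ∀ (N : ℕ) (l : List (Fin 4)), ∃ C : ℝ, ∀ h : ℝ, 0 < h → h ≤ h₀ → ∀ p : Ph,
    ‖pds l (fun p => a h p - ∑ j ∈ Finset.range N, (h : ℂ) ^ j * σ j p) p‖
      ≤ C * h ^ N * (1 + ‖p.2‖) ^ (m - N - nxi l)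
  quant : ∀ h : ℝ, 0 < h → h ≤ h₀ → IsOp h (a h) (P h)

/-- `P` is a semiclassical pseudo-differential operator of order `m` with principal symbol `p` -/
def IsQuantisation (h₀ m : ℝ) (P : ℝ → (ℝ × ℝ → ℂ) → (ℝ × ℝ → ℂ)) (p : Ph → ℝ) : Prop :=
  ∃ (a : ℝ → Ph → ℂ) (σ : ℕ → Ph → ℂ), IsSemiclassical h₀ m P a σ ∧ ∀ z : Ph, σ 0 z = (p z : ℂ)

/-- `T` is symmetric on `C^∞(T²) ⊂ L²(T²)` -/
def IsSym (T : (ℝ × ℝ → ℂ) → (ℝ × ℝ → ℂ)) : Prop :=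
  ∀ u v : ℝ × ℝ → ℂ, IsSmooth u → IsSmooth v → ip (T u) v = ip u (T v)

/-- weak commutation on `C^∞(T²)`: `⟨S u, T v⟩ = ⟨T u, S v⟩`; for symmetric operators this is
`S T = T S` on `C^∞(T²)`, and it holds when the self-adjoint closures of `S` and `T` commute strongly -/
def WeaklyCommute (S T : (ℝ × ℝ → ℂ) → (ℝ × ℝ → ℂ)) : Prop :=
  ∀ u v : ℝ × ℝ → ℂ, IsSmooth u → IsSmooth v → ip (S u) (T v) = ip (T u) (S v)

/-- partial derivative of a real function on phase space -/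
noncomputable def rd (i : Fin 4) (p : Ph → ℝ) : Ph → ℝ := fun z => fderiv ℝ p z (dir i)

/-- the differential of `p` at `z` in coordinates -/
noncomputable def grad (p : Ph → ℝ) (z : Ph) : Fin 4 → ℝ := fun i => rd i p z

/-- Poisson bracket `∑ (∂_{ξ_i} p ∂_{x_i} q - ∂_{x_i} p ∂_{ξ_i} q)` -/
noncomputable def poisson (p q : Ph → ℝ) (z : Ph) : ℝ :=
  rd 2 p z * rd 0 q z - rd 0 p z * rd 2 q z + (rd 3 p z * rd 1 q z - rd 1 p z * rd 3 q z)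

/-- classical integrable system on `T*T²`, with `p₁, p₂` in Kohn-Nirenberg classes -/
structure IsClassicalIntegrable (p₁ p₂ : Ph → ℝ) : Prop where
  symb₁ : ∃ m : ℝ, IsSymbol m (fun z => (p₁ z : ℂ))
  symb₂ : ∃ m : ℝ, IsSymbol m (fun z => (p₂ z : ℂ))
  comm : ∀ z : Ph, poisson p₁ p₂ z = 0
  indep : ∀ᵐ z : Ph, LinearIndependent ℝ ![grad p₁ z, grad p₂ z]

/-- `q(s) = cos s (sin s + 3 cos s)(sin s - cos s)(sin s - 2 cos s)` -/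
noncomputable def q (s : ℝ) : ℝ :=
  Real.cos s * (Real.sin s + 3 * Real.cos s) * (Real.sin s - Real.cos s)
    * (Real.sin s - 2 * Real.cos s)

/-- `f(s) = cos⁴ s (sin s + 3 cos s)(sin s - cos s)³` -/
noncomputable def f (s : ℝ) : ℝ :=
  Real.cos s ^ 4 * (Real.sin s + 3 * Real.cos s) * (Real.sin s - Real.cos s) ^ 3

/-- `p₁ = cos x₂ q(x₁) ξ₁ + 2 sin x₂ ξ₂` -/
noncomputable def p₁ (z : Ph) : ℝ :=
  Real.cos z.1.2 * q z.1.1 * z.2.1 + 2 * Real.sin z.1.2 * z.2.2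

/-- `p₂ = sin x₂ f(x₁) ξ₁²` -/
noncomputable def p₂ (z : Ph) : ℝ := Real.sin z.1.2 * f z.1.1 * z.2.1 ^ 2

end Pool.Agent.W545.QI.St
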